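import Mathlib

/-!
# MP_18b2cf_co, part B: the algebra of the construction

Polar points `qv s t` (intersection of the tangent lines with parameters `s`, `t`), the functionals
`av s`, the groups of facets and the thresholds.
-/

set_option autoImplicit false

namespace Pool.Agent.H54.Pol

open Finset

/-- the functional with parameter `s` -/
def av (s : ℝ) : ℝ × ℝ := (s, s ^ 2 - 1)

/-- the point on the two lines with parameters `s`, `t` -/
noncomputable def qv (s t : ℝ) : ℝ × ℝ := ((s + t) / (1 + s * t), -1 / (1 + s * t))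

/-- scalar product in the plane -/
def dot (a b : ℝ × ℝ) : ℝ := a.1 * b.1 + a.2 * b.2

lemma dot_qv (σ s t : ℝ) (h : 0 < 1 + s * t) :
    dot (av σ) (qv s t) = 1 - (σ - s) * (σ - t) / (1 + s * t) := by
  have h' : 1 + s * t ≠ 0 := h.ne'
  simp only [dot, av, qv]
  field_simp
  ring

lemma dot_qv_left (s t : ℝ) (h : 0 < 1 + s * t) : dot (av s) (qv s t) = 1 := by
  rw [dot_qv _ _ _ h]; simp

lemma dot_qv_right (s t : ℝ) (h : 0 < 1 + s * t) : dot (av t) (qv s t) = 1 := by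
  rw [dot_qv _ _ _ h]; simp

lemma dot_qv_lt (σ s t : ℝ) (h : 0 < 1 + s * t) (h' : 0 < (σ - s) * (σ - t)) :
    dot (av σ) (qv s t) < 1 := by
  rw [dot_qv _ _ _ h]
  have := div_pos h' h
  linarith

lemma dot_qv_le (σ s t : ℝ) (h : 0 < 1 + s * t) (h' : 0 ≤ (σ - s) * (σ - t)) :
    dot (av σ) (qv s t) ≤ 1 := by
  rw [dot_qv _ _ _ h]
  have := div_nonneg h' h.le
  linarith

lemma dot_qv_gt (σ s t : ℝ) (h : 0 < 1 + s * t) (h' : (σ - s) * (σ - t) < 0) :
    1 < dot (av σ) (qv s t) := by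
  rw [dot_qv _ _ _ h]
  have := div_neg_of_neg_of_pos h' h
  linarith

/-- groups of facets: `inl (j, b)`, signs `inr (inl i)`, neighbouring cuts `inr (inr b)` -/
abbrev Grp (g o : ℕ) := (Fin g × Bool) ⊕ (Fin o ⊕ Bool)

/-- offsets -/
def off : Fin 3 → ℝ := ![1, 2, -2]

variable {g o : ℕ}

/-- the offset pattern of a group -/
def kap : Grp g o → Fin g → Fin 3
  | Sum.inl (j₀, false), j => if j = j₀ then 1 else 0
  | Sum.inl (j₀, true), j => if j = j₀ then 2 else 0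
  | Sum.inr _, _ => 0

/-- the sign pattern of a group -/
def sg : Grp g o → Fin o → ℝ
  | Sum.inr (Sum.inl i₀), i => if i = i₀ then -1 else 1
  | _, _ => 1

/-- the cut used by a group -/
def lv : Grp g o → Fin 3
  | Sum.inl _ => 1
  | Sum.inr (Sum.inl _) => 1
  | Sum.inr (Sum.inr false) => 0
  | Sum.inr (Sum.inr true) => 2

/-- linear coefficient -/
noncomputable def xc (T : Grp g o → ℝ) (j : Fin g) : ℝ :=
  (T (Sum.inl (j, true)) - T (Sum.inl (j, false))) / 4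

/-- quadratic coefficient -/
noncomputable def yc (T : Grp g o → ℝ) (j : Fin g) : ℝ :=
  -(3 * T (Sum.inl (j, false)) + T (Sum.inl (j, true))) / 12

/-- plane coordinates of the new point (before scaling) -/
noncomputable def wv (m ε : ℝ) (T : Grp g o → ℝ) (j : Fin g) : ℝ × ℝ :=
  (2 * m + ε * (xc T j - 2 * m * yc T j), -1 + ε * yc T j)

/-- line coordinates of the new point (before scaling) -/
noncomputable def w0 (ε : ℝ) (T : Grp g o → ℝ) (i : Fin o) : ℝ :=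
  (3 + ε * T (Sum.inr (Sum.inl i))) / 2

/-- value of the functional with parameters `a`, `e` -/
noncomputable def Val (m ε : ℝ) (T : Grp g o → ℝ) (a : Fin g → ℝ) (e : Fin o → ℝ) : ℝ :=
  ∑ j, dot (av (a j)) (wv m ε T j) + ∑ i, e i * w0 ε T i

/-- reference value -/
noncomputable def Rf (m ε : ℝ) (T : Grp g o → ℝ) : ℝ := Val m ε T (fun _ => m + 1) (fun _ => 1)

/-- thresholds -/
noncomputable def cl (m ε : ℝ) (T : Grp g o → ℝ) : Fin 3 → ℝ :=
  ![Rf m ε T + ε * T (Sum.inr (Sum.inr false)), Rf m ε T - 3,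
    Rf m ε T + ε * T (Sum.inr (Sum.inr true))]

noncomputable def kp (ε : ℝ) (T : Grp g o → ℝ) : ℝ :=
  3 + ε * (T (Sum.inr (Sum.inr false)) + T (Sum.inr (Sum.inr true))) / 2

noncomputable def bb (ε : ℝ) (T : Grp g o → ℝ) : ℝ :=
  ε * (T (Sum.inr (Sum.inr true)) - T (Sum.inr (Sum.inr false))) / (2 * kp ε T)

noncomputable def cc (m ε : ℝ) (T : Grp g o → ℝ) : ℝ := (Rf m ε T - 3) / kp ε T

lemma kp_pos {ε : ℝ} {T : Grp g o → ℝ} (hε : 0 ≤ ε) (hT : ∀ γ, 0 ≤ T γ) : 0 < kp ε T := by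
  have h1 := mul_nonneg hε (hT (Sum.inr (Sum.inr false)))
  have h2 := mul_nonneg hε (hT (Sum.inr (Sum.inr true)))
  unfold kp
  nlinarith

/-- the quadratic polynomial interpolates the thresholds -/
lemma cl_eq {m ε : ℝ} {T : Grp g o → ℝ} (hk : kp ε T ≠ 0) (l : Fin 3) :
    kp ε T * (((l : ℕ) : ℝ) - 1) ^ 2 + kp ε T * (bb ε T * (((l : ℕ) : ℝ) - 1)) +
      kp ε T * cc m ε T = cl m ε T l := by
  have h1 : kp ε T * bb ε T =
      ε * (T (Sum.inr (Sum.inr true)) - T (Sum.inr (Sum.inr false))) / 2 := by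
    unfold bb
    field_simp
  have h2 : kp ε T * cc m ε T = Rf m ε T - 3 := by
    unfold cc
    field_simp
  have h3 : kp ε T * (bb ε T * (((l : ℕ) : ℝ) - 1)) = (kp ε T * bb ε T) * (((l : ℕ) : ℝ) - 1) := by
    ring
  rw [h3, h1, h2]
  fin_cases l
  · simp [cl, kp]; ring
  · simp [cl]
  · simp [cl, kp]; ring

/-- difference to the reference value -/
lemma Val_sub (m ε : ℝ) (T : Grp g o → ℝ) (a : Fin g → ℝ) (e : Fin o → ℝ) :
    Val m ε T a e - Rf m ε T =
      ∑ j, (-((a j - m) ^ 2 - 1) + ε * (xc T j * ((a j - m) - 1) + yc T j * ((a j - m) ^ 2 - 1))) +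
      ∑ i, (e i - 1) * w0 ε T i := by
  unfold Rf Val
  rw [add_sub_add_comm, ← Finset.sum_sub_distrib, ← Finset.sum_sub_distrib]
  congr 1
  · apply Finset.sum_congr rfl
    intro j _
    simp only [dot, av, wv]
    ring
  · apply Finset.sum_congr rfl
    intro i _
    ring

/-- interpolation of the two codes of a plane -/
lemma xy_off (T : Grp g o → ℝ) (j : Fin g) (κ : Fin 3) :
    xc T j * (off κ - 1) + yc T j * ((off κ) ^ 2 - 1) =
      ![0, -T (Sum.inl (j, false)), -T (Sum.inl (j, true))] κ := by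
  unfold xc yc
  fin_cases κ
  · simp [off]
  · simp [off]; ring
  · simp [off]; ring

lemma off_sq (κ : Fin 3) : (off κ) ^ 2 - 1 = ![0, 3, 3] κ := by
  fin_cases κ
  · simp [off]
  · simp [off]; norm_num
  · simp [off]; norm_num

lemma off_ne (κ : Fin 3) : off κ ≠ 0 := by
  fin_cases κ <;> simp [off]

/-- zeroth order -/
lemma zeroth (γ : Grp g o) :
    (-∑ j, ((off (kap γ j)) ^ 2 - 1)) + 3 / 2 * ∑ i, (sg γ i - 1) =
      if lv γ = 1 then -3 else 0 := by
  simp only [off_sq]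
  rcases γ with ⟨j₀, _ | _⟩ | i₀ | _ | _
  · have h : ∀ j : Fin g, (![0, 3, 3] (kap (o := o) (Sum.inl (j₀, false)) j) : ℝ) =
        if j = j₀ then 3 else 0 := by
      intro j
      by_cases hj : j = j₀ <;> simp [kap, hj]
    simp [h, lv, sg]
  · have h : ∀ j : Fin g, (![0, 3, 3] (kap (o := o) (Sum.inl (j₀, true)) j) : ℝ) =
        if j = j₀ then 3 else 0 := by
      intro j
      by_cases hj : j = j₀ <;> simp [kap, hj]
    simp [h, lv, sg]
  · have h : ∀ i : Fin o, sg (g := g) (Sum.inr (Sum.inl i₀)) i - 1 = if i = i₀ then -2 else 0 := by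
      intro i
      by_cases hi : i = i₀ <;> simp [sg, hi]
      norm_num
    simp [h, lv, kap]
  · simp [lv, kap, sg]
  · simp [lv, kap, sg]

/-- first order -/
lemma first_order (γ : Grp g o) (T : Grp g o → ℝ) :
    (∑ j, (xc T j * (off (kap γ j) - 1) + yc T j * ((off (kap γ j)) ^ 2 - 1))) +
      (∑ i, (sg γ i - 1) * T (Sum.inr (Sum.inl i)) / 2) - (if lv γ = 1 then 0 else T γ) = -T γ := by
  simp only [xy_off]
  rcases γ with ⟨j₀, _ | _⟩ | i₀ | _ | _
  · have h : ∀ j : Fin g, (![0, -T (Sum.inl (j, false)), -T (Sum.inl (j, true))]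
        (kap (o := o) (Sum.inl (j₀, false)) j) : ℝ) = if j = j₀ then -T (Sum.inl (j₀, false)) else 0 := by
      intro j
      by_cases hj : j = j₀ <;> simp [kap, hj]
    simp [h, lv, sg]
  · have h : ∀ j : Fin g, (![0, -T (Sum.inl (j, false)), -T (Sum.inl (j, true))]
        (kap (o := o) (Sum.inl (j₀, true)) j) : ℝ) = if j = j₀ then -T (Sum.inl (j₀, true)) else 0 := by
      intro j
      by_cases hj : j = j₀ <;> simp [kap, hj]
    simp [h, lv, sg]
  · have h : ∀ i : Fin o, (sg (g := g) (Sum.inr (Sum.inl i₀)) i - 1) * T (Sum.inr (Sum.inl i)) / 2 =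
        if i = i₀ then -T (Sum.inr (Sum.inl i₀)) else 0 := by
      intro i
      by_cases hi : i = i₀ <;> simp [sg, hi]
      ring
    simp [h, lv, kap]
  · simp [lv, kap, sg]
  · simp [lv, kap, sg]

/-- parameters of the functionals: class `s`, offset `κ`, digit `t` in the plane `j` -/
noncomputable def par (B : ℕ) (ε : ℝ) (j : ℕ) (s : ℕ) (κ : Fin 3) (t : ℕ) : ℝ :=
  8 * (s + 1) + off κ - ε * (t * (B : ℝ) ^ j / (2 * off κ))

/-- the remainder function -/
noncomputable def Gf (B : ℕ) (T : Grp g o → ℝ) (γ : Grp g o) (t : Fin g → ℕ) (ε : ℝ) : ℝ :=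
  ∑ j : Fin g, ((t j) * (B : ℝ) ^ (j : ℕ) - ε * ((t j) * (B : ℝ) ^ (j : ℕ) / (2 * off (kap γ j))) ^ 2 +
    (xc T j * ((off (kap γ j) - ε * ((t j) * (B : ℝ) ^ (j : ℕ) / (2 * off (kap γ j)))) - 1) +
      yc T j * ((off (kap γ j) - ε * ((t j) * (B : ℝ) ^ (j : ℕ) / (2 * off (kap γ j)))) ^ 2 - 1))) +
    (∑ i, (sg γ i - 1) * T (Sum.inr (Sum.inl i)) / 2) - (if lv γ = 1 then 0 else T γ)

/-- **Key expansion.** -/
lemma Val_group (B : ℕ) (T : Grp g o → ℝ) (γ : Grp g o) (t : Fin g → ℕ) (s : ℕ) (ε : ℝ) :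
    Val (8 * ((s : ℝ) + 1)) ε T (fun j => par B ε j s (kap γ j) (t j)) (sg γ) -
      cl (8 * ((s : ℝ) + 1)) ε T (lv γ) = ε * Gf B T γ t ε := by
  have h1 := Val_sub (8 * ((s : ℝ) + 1)) ε T (fun j => par B ε j s (kap γ j) (t j)) (sg γ)
  have h2 : cl (8 * ((s : ℝ) + 1)) ε T (lv γ) - Rf (8 * ((s : ℝ) + 1)) ε T =
      (if lv γ = 1 then -3 else 0) + ε * (if lv γ = 1 then 0 else T γ) := by
    rcases γ with ⟨j₀, _ | _⟩ | i₀ | _ | _ <;> simp [lv, cl]
  have h3 := zeroth γ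
  have h4 : ∑ i, (sg γ i - 1) * w0 ε T i = 3 / 2 * ∑ i, (sg γ i - 1) +
      ε * ∑ i, (sg γ i - 1) * T (Sum.inr (Sum.inl i)) / 2 := by
    rw [Finset.mul_sum, Finset.mul_sum, ← Finset.sum_add_distrib]
    apply Finset.sum_congr rfl
    intro i _
    unfold w0
    ring
  have h5 : ∑ j : Fin g, (-((par B ε j s (kap γ j) (t j) - 8 * ((s : ℝ) + 1)) ^ 2 - 1) +
      ε * (xc T j * ((par B ε j s (kap γ j) (t j) - 8 * ((s : ℝ) + 1)) - 1) +
        yc T j * ((par B ε j s (kap γ j) (t j) - 8 * ((s : ℝ) + 1)) ^ 2 - 1))) =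
      (-∑ j, ((off (kap γ j)) ^ 2 - 1)) + ε * ∑ j : Fin g, ((t j) * (B : ℝ) ^ (j : ℕ) -
        ε * ((t j) * (B : ℝ) ^ (j : ℕ) / (2 * off (kap γ j))) ^ 2 +
      (xc T j * ((off (kap γ j) - ε * ((t j) * (B : ℝ) ^ (j : ℕ) / (2 * off (kap γ j)))) - 1) +
      yc T j * ((off (kap γ j) - ε * ((t j) * (B : ℝ) ^ (j : ℕ) / (2 * off (kap γ j)))) ^ 2 - 1))) := by
    rw [Finset.mul_sum, ← Finset.sum_neg_distrib, ← Finset.sum_add_distrib]
    apply Finset.sum_congr rfl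
    intro j _
    have hne := off_ne (kap γ j)
    unfold par
    set q : ℝ := off (kap γ j)
    set x := xc T j
    set y := yc T j
    set n : ℝ := (t j) * (B : ℝ) ^ (j : ℕ)
    have e1 : 8 * ((s : ℝ) + 1) + q - ε * (n / (2 * q)) - 8 * ((s : ℝ) + 1) = q - ε * (n / (2 * q)) := by
      ring
    rw [e1]
    have e2 : (q - ε * (n / (2 * q))) ^ 2 = q ^ 2 - ε * n + ε ^ 2 * (n / (2 * q)) ^ 2 := by
      field_simp
      ring
    rw [e2]
    ring
  unfold Gf
  rw [h4, h5] at h1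
  linear_combination h1 - h2 + h3

/-- value of the remainder at `ε = 0` -/
lemma Gf_zero (B : ℕ) (T : Grp g o → ℝ) (γ : Grp g o) (t : Fin g → ℕ) :
    Gf B T γ t 0 = (∑ j : Fin g, (t j) * (B : ℝ) ^ (j : ℕ)) - T γ := by
  have h := first_order γ T
  unfold Gf
  simp only [zero_mul, sub_zero]
  rw [Finset.sum_add_distrib]
  linear_combination h

lemma continuous_Gf (B : ℕ) (T : Grp g o → ℝ) (γ : Grp g o) (t : Fin g → ℕ) :
    Continuous (Gf B T γ t) := by
  unfold Gf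
  fun_prop

/-- the quadratic factor of a new point -/
noncomputable def Cf (m ε : ℝ) (T : Grp g o → ℝ) (σ₀ lam : ℝ) : ℝ :=
  1 / (1 + σ₀ ^ 2 - lam * bb ε T * σ₀ + lam ^ 2 * cc m ε T)

/-- first plane coordinates of the new point -/
noncomputable def xv (m ε : ℝ) (T : Grp g o → ℝ) (σ₀ lam : ℝ) : ℝ × ℝ :=
  (-(Cf m ε T σ₀ lam) * (-2 * σ₀ + lam * bb ε T), -(Cf m ε T σ₀ lam))

lemma dot_xv {m ε : ℝ} {T : Grp g o → ℝ} {σ₀ lam : ℝ}
    (h : 1 + σ₀ ^ 2 - lam * bb ε T * σ₀ + lam ^ 2 * cc m ε T ≠ 0) (σ : ℝ) :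
    dot (av σ) (xv m ε T σ₀ lam) = 1 - Cf m ε T σ₀ lam *
      ((σ - σ₀) ^ 2 + lam * bb ε T * (σ - σ₀) + lam ^ 2 * cc m ε T) := by
  have hC : Cf m ε T σ₀ lam * (1 + σ₀ ^ 2 - lam * bb ε T * σ₀ + lam ^ 2 * cc m ε T) = 1 := by
    unfold Cf
    exact one_div_mul_cancel h
  simp only [dot, av, xv]
  linear_combination hC

end Pool.Agent.H54.Pol
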