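import Pool.Agent.H54.Pol.Sep

/-!
# MP_18b2cf_co, part B: asymptotics
-/

set_option autoImplicit false

namespace Pool.Agent.H54.Pol

open Filter Topology
open Pool.Agent.H4.Pol (numTypes)

/-- the logarithmic form of the construction -/
lemma construct_log (g o r B k F v : ℕ) (hg : 1 ≤ g) (hr : 1 ≤ r) (hB : 1 ≤ B) (hk : 1 ≤ k)
    (hv : v = 4 * k + F + 6 * g * r * B + 2 * o + k * r) :
    0 < numTypes (2 + 2 * g + o) v ∧
    (g : ℝ) * (2 + 2 * g + o) * (k * r) * Real.log B ≤
      Real.log (numTypes (2 + 2 * g + o) v) + ((v : ℝ) - k * r) * Real.log v := by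
  have h := construct g o r B k F hg hr hB hk
  rw [← hv] at h
  have hm : 4 * k + F + 6 * g * r * B + 2 * o = v - k * r := by omega
  rw [hm] at h
  have hkr : k * r ≤ v := by omega
  have hvpos : 0 < v := lt_of_lt_of_le (Nat.mul_pos hk hr) hkr
  have hpos : 0 < numTypes (2 + 2 * g + o) v := by
    rcases Nat.eq_zero_or_pos (numTypes (2 + 2 * g + o) v) with h0 | h0
    · exfalso
      rw [h0, zero_mul] at h
      have : 0 < (B ^ g) ^ ((2 * g + o + 2) * (k * r)) := by positivity
      omega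
    · exact h0
  refine ⟨hpos, ?_⟩
  have hR : ((B : ℝ) ^ g) ^ ((2 * g + o + 2) * (k * r)) ≤
      (numTypes (2 + 2 * g + o) v : ℝ) * (v : ℝ) ^ (v - k * r) := by exact_mod_cast h
  have hBR : (0 : ℝ) < B := by exact_mod_cast hB
  have hvR : (0 : ℝ) < v := by exact_mod_cast hvpos
  have hNR : (0 : ℝ) < numTypes (2 + 2 * g + o) v := by exact_mod_cast hpos
  have h2 := Real.log_le_log (by positivity) hR
  rw [Real.log_mul hNR.ne' (by positivity), Real.log_pow, Real.log_pow, Real.log_pow] at h2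
  push_cast [Nat.cast_sub hkr] at h2
  have e : (g : ℝ) * (2 + 2 * g + o) * (k * r) * Real.log B =
      (2 * g + o + 2) * (k * r) * (g * Real.log B) := by ring
  rw [e]
  exact h2

/-- **Lower bound for the number of combinatorial types.** -/
theorem asymp (d : ℕ) (hd : 4 ≤ d) (c : ℝ) (hc : c < (d : ℝ) * (((d / 2 : ℕ) : ℝ) - 1)) :
    ∀ᶠ v : ℕ in atTop, (v : ℝ) ^ (c * v) ≤ (numTypes d v : ℝ) := by
  obtain ⟨g, hg, hg2⟩ : ∃ g, 1 ≤ g ∧ d / 2 = g + 1 := ⟨d / 2 - 1, by omega, by omega⟩
  obtain ⟨o, ho⟩ : ∃ o, d = 2 + 2 * g + o := ⟨d - (2 + 2 * g), by omega⟩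
  have hc' : c < (g : ℝ) * d := by
    rw [hg2] at hc
    push_cast at hc
    linarith
  clear hc
  set P : ℝ := (g : ℝ) * d with hP
  have hP0 : 0 ≤ P := by positivity
  -- choice of `r`
  obtain ⟨r₀, hr₀⟩ := exists_nat_gt ((P + 5 + 4 * c) / (P - c))
  set r := max r₀ 2 with hrdef
  have hr2 : 2 ≤ r := le_max_right _ _
  have hrR : (2 : ℝ) ≤ r := by exact_mod_cast hr2
  have hPc : 0 < P - c := by linarith
  have hr3 : P + 5 + 4 * c < (P - c) * r := by
    have h1 : (r₀ : ℝ) ≤ r := by exact_mod_cast le_max_left _ _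
    have h2 : (P + 5 + 4 * c) / (P - c) < r := lt_of_lt_of_le hr₀ h1
    rw [div_lt_iff₀ hPc] at h2
    linarith
  set a : ℝ := (P * (r - 1) - 5) / (r + 4) - c with ha
  have ha0 : 0 < a := by
    rw [ha, sub_pos, lt_div_iff₀ (by linarith)]
    nlinarith
  set M := 6 * g * r * r with hM
  have hMpos : 0 < M := by positivity
  set C : ℝ := 2 * o + 4 + r with hC
  have hC0 : 0 ≤ C := by positivity
  set K : ℝ := Real.log (2 * M) with hK
  have hMR : (1 : ℝ) ≤ M := by exact_mod_cast hMpos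
  have hK0 : 0 ≤ K := Real.log_nonneg (by linarith)
  -- large `v`
  have hlog : Tendsto (fun v : ℕ => Real.log v) atTop atTop :=
    Real.tendsto_log_atTop.comp tendsto_natCast_atTop_atTop
  have ev1 : ∀ᶠ v : ℕ in atTop, P * K ≤ a / 2 * Real.log v :=
    (hlog.const_mul_atTop (by positivity)).eventually_ge_atTop _
  have ev2 : ∀ᶠ v : ℕ in atTop, (P + 1) * C ≤ a / 2 * (v : ℝ) :=
    ((tendsto_natCast_atTop_atTop (R := ℝ)).const_mul_atTop (by positivity)).eventually_ge_atTop _
  have ev3 : ∀ᶠ v : ℕ in atTop, 2 * M + 4 * (2 * o + 4 + r) + 1 ≤ v := eventually_ge_atTop _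
  have ev4 : ∀ᶠ v : ℕ in atTop, P * K ≤ (P + 1) * Real.log v :=
    (hlog.const_mul_atTop (by positivity)).eventually_ge_atTop _
  filter_upwards [ev1, ev2, ev3, ev4] with v h1 h2 h3 h4
  have hvM : 2 * M ≤ v := by omega
  have hvpos : 0 < v := by omega
  have hvR : (1 : ℝ) ≤ v := by exact_mod_cast hvpos
  have hL0 : 0 ≤ Real.log v := Real.log_nonneg hvR
  -- the parameters
  set B := v / M with hB
  have hB1 : 1 ≤ B := (Nat.one_le_div_iff hMpos).2 (by omega)
  have hBle : M * B ≤ v := Nat.mul_div_le v M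
  have hBge : v < M * (B + 1) := Nat.lt_mul_div_succ v hMpos
  have h6 : 6 * g * r * B * r ≤ v := by
    calc 6 * g * r * B * r = M * B := by rw [hM]; ring
      _ ≤ v := hBle
  have h62 : 2 * (6 * g * r * B) ≤ v := by
    calc 2 * (6 * g * r * B) ≤ r * (6 * g * r * B) := Nat.mul_le_mul_right _ hr2
      _ = 6 * g * r * B * r := by ring
      _ ≤ v := h6
  set Q := 6 * g * r * B with hQ
  set k := (v - Q - 2 * o) / (4 + r) with hk
  set F := (v - Q - 2 * o) % (4 + r) with hF
  have hdiv : (4 + r) * k + F = v - Q - 2 * o := Nat.div_add_mod _ _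
  have hFlt : F < 4 + r := Nat.mod_lt _ (by omega)
  have hsum : v = 4 * k + F + Q + 2 * o + k * r := by
    have e : (4 + r) * k = 4 * k + k * r := by ring
    rw [e] at hdiv
    omega
  have hk1 : 1 ≤ k := by
    rw [hk, Nat.one_le_div_iff (by omega)]
    omega
  obtain ⟨hNpos, hmain⟩ := construct_log g o r B k F v hg (by omega) hB1 hk1 hsum
  rw [← ho] at hNpos hmain
  -- lower bound for `k r`
  have hkr : (v : ℝ) * (r - 1) / (r + 4) - C ≤ (k : ℝ) * r := by
    have e1 : (v : ℝ) = (4 + r) * k + F + Q + 2 * o := by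
      have : v = (4 + r) * k + F + Q + 2 * o := by
        rw [hsum]; ring
      exact_mod_cast this
    have e2 : (F : ℝ) ≤ 4 + r := by exact_mod_cast hFlt.le
    have e3 : (Q : ℝ) * r ≤ v := by exact_mod_cast h6
    have e4 : (v : ℝ) * (r - 1) ≤ (r + 4) * ((k : ℝ) * r) + r * C := by
      have h5 : (v : ℝ) * (r - 1) ≤ r * (v - Q) := by nlinarith
      have h6 : (v : ℝ) - Q ≤ (4 + r) * k + C := by rw [hC]; linarith
      have h7 : (r : ℝ) * (v - Q) ≤ r * ((4 + r) * k + C) :=
        mul_le_mul_of_nonneg_left h6 (by linarith)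
      nlinarith
    rw [sub_le_iff_le_add, div_le_iff₀ (by linarith)]
    nlinarith
  -- logarithm of `B`
  have hlogB : Real.log v - K ≤ Real.log B := by
    have h5 : (v : ℝ) ≤ 2 * M * B := by
      have : v ≤ 2 * M * B := by nlinarith
      exact_mod_cast this
    have hBR : (0 : ℝ) < B := by exact_mod_cast hB1
    have h6 := Real.log_le_log (by linarith) h5
    rw [Real.log_mul (by positivity) hBR.ne'] at h6
    linarith
  -- the estimate
  have hkr0 : (0 : ℝ) ≤ (k : ℝ) * r := by positivity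
  have h7 : P * ((k : ℝ) * r) * (Real.log v - K) ≤
      (g : ℝ) * (2 + 2 * g + o) * (k * r) * Real.log B := by
    have e : (g : ℝ) * (2 + 2 * g + o) * (k * r) = P * ((k : ℝ) * r) := by
      rw [hP, ho]
      push_cast
      ring
    rw [e]
    exact mul_le_mul_of_nonneg_left hlogB (by positivity)
  have h8 : P * ((k : ℝ) * r) * (Real.log v - K) ≤
      Real.log (numTypes d v) + ((v : ℝ) - k * r) * Real.log v := h7.trans hmain
  have h9 : ((v : ℝ) * (r - 1) / (r + 4) - C) * ((P + 1) * Real.log v - P * K) ≤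
      ((k : ℝ) * r) * ((P + 1) * Real.log v - P * K) :=
    mul_le_mul_of_nonneg_right hkr (by linarith)
  have h10 : c * v * Real.log v ≤ Real.log (numTypes d v) := by
    have e1 : (v : ℝ) * (r - 1) / (r + 4) * ((P + 1) * Real.log v) - v * Real.log v =
        (a + c) * v * Real.log v := by
      rw [ha]
      have : (r : ℝ) + 4 ≠ 0 := by linarith
      field_simp
      ring
    have e2 : (v : ℝ) * (r - 1) / (r + 4) ≤ v := by
      rw [div_le_iff₀ (by linarith)]
      nlinarith
    have e3 : (v : ℝ) * (r - 1) / (r + 4) * (P * K) ≤ v * (P * K) :=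
      mul_le_mul_of_nonneg_right e2 (by positivity)
    have e4 : (v : ℝ) * (P * K) ≤ v * (a / 2 * Real.log v) :=
      mul_le_mul_of_nonneg_left h1 (by linarith)
    have e5 : (P + 1) * C * Real.log v ≤ a / 2 * v * Real.log v :=
      mul_le_mul_of_nonneg_right h2 hL0
    have e6 : 0 ≤ C * (P * K) := by positivity
    nlinarith
  have hNR : (0 : ℝ) < numTypes d v := by exact_mod_cast hNpos
  rw [Real.rpow_def_of_pos (by linarith), ← Real.le_log_iff_exp_le hNR]
  linarith

/-- liminf form -/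
theorem liminf_ge (d : ℕ) (hd : 4 ≤ d) :
    (((d : ℝ) * (((d / 2 : ℕ) : ℝ) - 1) : ℝ) : EReal) ≤
      liminf (fun v : ℕ => ((Real.log (numTypes d v) / (v * Real.log v) : ℝ) : EReal)) atTop := by
  apply le_of_forall_lt
  intro x hx
  obtain ⟨c, hxc, hcL⟩ := EReal.lt_iff_exists_real_btwn.1 hx
  have hc : c < (d : ℝ) * (((d / 2 : ℕ) : ℝ) - 1) := by exact_mod_cast hcL
  refine lt_of_lt_of_le hxc ?_
  apply le_liminf_of_le
  · exact isCobounded_ge_of_top
  · filter_upwards [asymp d hd c hc, eventually_ge_atTop 2] with v h1 h2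
    have hv : (2 : ℝ) ≤ v := by exact_mod_cast h2
    have hL : 0 < Real.log v := Real.log_pos (by linarith)
    have hpos : (0 : ℝ) < (v : ℝ) ^ (c * v) := Real.rpow_pos_of_pos (by linarith) _
    have h3 := Real.log_le_log hpos h1
    rw [Real.log_rpow (by linarith)] at h3
    have h4 : c ≤ Real.log (numTypes d v) / (v * Real.log v) := by
      rw [le_div_iff₀ (by positivity)]
      linarith
    exact_mod_cast h4

end Pool.Agent.H54.Pol
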