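import Pool.Agent.H4.Pol2.Main

/-!
# MP_18b2cf_co: asymptotics of the second construction
-/

set_option autoImplicit false

namespace Pool.Agent.H4.Pol2

open Filter Topology
open Pool.Agent.H4.Pol (numTypes)

/-- the logarithmic form of the construction (with `B = k`) -/
lemma construct2_log (hC : Construct2) (m o r k F v : ℕ) (hm : 2 ≤ m) (ho : o ≤ 1) (hr : 1 ≤ r)
    (hk : 1 ≤ k) (hv : v = 6 * m * (m * (r - 1) + 1) * k + 2 * o + F + r * r * k) :
    0 < numTypes (2 * m + o) v ∧
    ((m : ℝ) - 1) * (r * r) * (Real.log (k.factorial)) +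
      ((m : ℝ) - 1) * (2 * m + o) * (r * r * k) * Real.log k ≤
      Real.log (numTypes (2 * m + o) v) + ((v : ℝ) - r * r * k) * Real.log v := by
  have h := hC m o r k k F hm ho hr hk hk
  have e1 : 2 * m * ((m * (r - 1) + 1) * (2 * k + k)) + 2 * o + F + r * r * k = v := by
    rw [hv]; ring
  have hkr : r * r * k ≤ v := by omega
  have e2 : 2 * m * ((m * (r - 1) + 1) * (2 * k + k)) + 2 * o + F = v - r * r * k := by omega
  rw [e1, e2] at h
  have hvpos : 0 < v := lt_of_lt_of_le (Nat.mul_pos (Nat.mul_pos hr hr) hk) hkr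
  have hpos : 0 < numTypes (2 * m + o) v := by
    rcases Nat.eq_zero_or_pos (numTypes (2 * m + o) v) with h0 | h0
    · exfalso
      rw [h0, zero_mul] at h
      have h1 : 0 < k.factorial ^ ((m - 1) * (r * r)) := pow_pos (Nat.factorial_pos _) _
      have h2 : 0 < (k ^ (m - 1)) ^ ((2 * m + o) * (r * r * k)) := by positivity
      have h3 := Nat.mul_pos h1 h2
      omega
    · exact h0
  refine ⟨hpos, ?_⟩
  have hR : ((k.factorial : ℝ) ^ ((m - 1) * (r * r))) *
      ((k : ℝ) ^ (m - 1)) ^ ((2 * m + o) * (r * r * k)) ≤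
      (numTypes (2 * m + o) v : ℝ) * (v : ℝ) ^ (v - r * r * k) := by exact_mod_cast h
  have hkR : (0 : ℝ) < k := by exact_mod_cast hk
  have hfR : (0 : ℝ) < k.factorial := by exact_mod_cast Nat.factorial_pos _
  have hvR : (0 : ℝ) < v := by exact_mod_cast hvpos
  have hNR : (0 : ℝ) < numTypes (2 * m + o) v := by exact_mod_cast hpos
  have h2 := Real.log_le_log (by positivity) hR
  rw [Real.log_mul hNR.ne' (by positivity), Real.log_mul (by positivity) (by positivity),
    Real.log_pow, Real.log_pow, Real.log_pow, Real.log_pow] at h2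
  push_cast [Nat.cast_sub hkr, Nat.cast_sub (show 1 ≤ m by omega)] at h2
  linarith

lemma log_factorial_ge (k : ℕ) (hk : 1 ≤ k) :
    (k : ℝ) * Real.log k - k ≤ Real.log (k.factorial) := by
  have hkR : (0 : ℝ) < k := by exact_mod_cast hk
  have hfR : (0 : ℝ) < k.factorial := by exact_mod_cast Nat.factorial_pos _
  have h1 : (k : ℝ) ^ k / k.factorial ≤ Real.exp k := Real.pow_div_factorial_le_exp _ hkR.le _
  have h2 := Real.log_le_log (by positivity) h1
  rw [Real.log_exp, Real.log_div (by positivity) hfR.ne', Real.log_pow] at h2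
  linarith

/-- the final estimate, with plain real numbers -/
lemma asymp2_est (v L c a P C K' N T q R : ℝ) (hv : 0 ≤ v) (hL : 0 ≤ L) (hq : 0 < q)
    (hRq : R ≤ q) (ha : a = (P + 1) * R / q - 1 - c) (hK' : 0 ≤ K') (hC : 0 ≤ C)
    (h1 : K' ≤ a / 2 * L) (h2 : (P + 1) * C ≤ a / 2 * v)
    (h8 : N * ((P + 1) * L - K') ≤ T + v * L)
    (h9 : (v * R / q - C) * ((P + 1) * L - K') ≤ N * ((P + 1) * L - K')) :
    c * v * L ≤ T := by
  have e1 : v * R / q * ((P + 1) * L) - v * L = (a + c) * v * L := by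
    rw [ha]
    field_simp
    ring
  have e2 : v * R / q ≤ v := by
    rw [div_le_iff₀ hq]
    exact mul_le_mul_of_nonneg_left hRq hv
  have e3 : v * R / q * K' ≤ v * K' := mul_le_mul_of_nonneg_right e2 hK'
  have e4 : v * K' ≤ v * (a / 2 * L) := mul_le_mul_of_nonneg_left h1 hv
  have e5 : (P + 1) * C * L ≤ a / 2 * v * L := mul_le_mul_of_nonneg_right h2 hL
  have e6 : 0 ≤ C * K' := mul_nonneg hC hK'
  have e7 : (v * R / q - C) * ((P + 1) * L - K') =
      v * R / q * ((P + 1) * L) - v * R / q * K' - (P + 1) * C * L + C * K' := by ring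
  have e8 : v * (a / 2 * L) = a / 2 * v * L := by ring
  have e9 : (a + c) * v * L = a / 2 * v * L + a / 2 * v * L + c * v * L := by ring
  linarith

/-- **Lower bound for the number of combinatorial types.** -/
theorem asymp2 (hC : Construct2) (d : ℕ) (hd : 4 ≤ d) (c : ℝ)
    (hc : c < ((d : ℝ) + 1) * (((d / 2 : ℕ) : ℝ) - 1)) :
    ∀ᶠ v : ℕ in atTop, (v : ℝ) ^ (c * v) ≤ (numTypes d v : ℝ) := by
  obtain ⟨m, o, hm, ho, hdm, hm2⟩ : ∃ m o, 2 ≤ m ∧ o ≤ 1 ∧ d = 2 * m + o ∧ d / 2 = m :=
    ⟨d / 2, d % 2, by omega, by omega, by omega, rfl⟩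
  rw [hm2] at hc
  have hmR : (2 : ℝ) ≤ m := by exact_mod_cast hm
  set P : ℝ := ((d : ℝ) + 1) * ((m : ℝ) - 1) with hP
  have hd0 : (0 : ℝ) ≤ d := Nat.cast_nonneg _
  have hP0 : 0 ≤ P := mul_nonneg (by linarith) (by linarith)
  have hPc : 0 < P - c := by linarith
  -- choice of `r`
  obtain ⟨r₀, hr₀⟩ := exists_nat_gt (6 * (m : ℝ) ^ 2 * (c + 1) / (P - c))
  set r := max r₀ 1 with hrdef
  have hr1 : 1 ≤ r := le_max_right _ _
  have hrR : (1 : ℝ) ≤ r := by exact_mod_cast hr1
  have hr3 : 6 * (m : ℝ) ^ 2 * (c + 1) < (P - c) * r := by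
    have h1 : (r₀ : ℝ) ≤ r := by exact_mod_cast le_max_left _ _
    have h2 : 6 * (m : ℝ) ^ 2 * (c + 1) / (P - c) < r := lt_of_lt_of_le hr₀ h1
    rw [div_lt_iff₀ hPc] at h2
    linarith
  set S := m * (r - 1) + 1 with hS
  set q := r * r + 6 * m * S with hq
  have hqpos : 0 < q := by
    rw [hq]
    have : 0 < r * r := Nat.mul_pos hr1 hr1
    omega
  have hqR : (0 : ℝ) < q := by exact_mod_cast hqpos
  have hqR1 : (1 : ℝ) ≤ q := by exact_mod_cast hqpos
  have hqle : (q : ℝ) ≤ r * (r + 6 * m ^ 2) := by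
    have h1 : S ≤ m * r := by
      rw [hS]
      have : m * (r - 1) + m = m * r := by
        rw [← Nat.mul_succ]
        congr 1
        omega
      omega
    have h2 : q ≤ r * r + 6 * m * (m * r) := by
      rw [hq]
      exact Nat.add_le_add_left (Nat.mul_le_mul_left _ h1) _
    have h3 : (q : ℝ) ≤ r * r + 6 * m * (m * r) := by exact_mod_cast h2
    nlinarith
  set a : ℝ := (P + 1) * (r * r) / q - 1 - c with ha
  have ha0 : 0 < a := by
    rw [ha, sub_sub, sub_pos, lt_div_iff₀ hqR]
    rcases le_or_gt (1 + c) 0 with h1 | h1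
    · have h2 : (1 + c) * q ≤ 0 := mul_nonpos_of_nonpos_of_nonneg h1 hqR.le
      have h3 : 0 < (P + 1) * ((r : ℝ) * r) := by positivity
      linarith
    · have h2 : (1 + c) * q ≤ (1 + c) * (r * (r + 6 * m ^ 2)) :=
        mul_le_mul_of_nonneg_left hqle h1.le
      nlinarith
  set C : ℝ := 2 * r * r with hC1
  have hC0 : 0 ≤ C := by positivity
  set K : ℝ := Real.log (2 * q) with hK
  have hK0 : 0 ≤ K := Real.log_nonneg (by linarith)
  set K' : ℝ := P * K + (m - 1) with hK'
  have hK'0 : 0 ≤ K' := add_nonneg (mul_nonneg hP0 hK0) (by linarith)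
  -- large `v`
  have hlog : Tendsto (fun v : ℕ => Real.log v) atTop atTop :=
    Real.tendsto_log_atTop.comp tendsto_natCast_atTop_atTop
  have ev1 : ∀ᶠ v : ℕ in atTop, K' ≤ a / 2 * Real.log v :=
    (hlog.const_mul_atTop (by positivity)).eventually_ge_atTop _
  have ev2 : ∀ᶠ v : ℕ in atTop, (P + 1) * C ≤ a / 2 * (v : ℝ) :=
    ((tendsto_natCast_atTop_atTop (R := ℝ)).const_mul_atTop (by positivity)).eventually_ge_atTop _
  have ev3 : ∀ᶠ v : ℕ in atTop, 2 * q + 4 * (2 * o + q) + 1 ≤ v := eventually_ge_atTop _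
  have ev4 : ∀ᶠ v : ℕ in atTop, K' ≤ (P + 1) * Real.log v :=
    (hlog.const_mul_atTop (by positivity)).eventually_ge_atTop _
  filter_upwards [ev1, ev2, ev3, ev4] with v h1 h2 h3 h4
  have hvpos : 0 < v := by omega
  have hvR : (1 : ℝ) ≤ v := by exact_mod_cast hvpos
  have hL0 : 0 ≤ Real.log v := Real.log_nonneg hvR
  -- the parameters
  set k := (v - 2 * o) / q with hk
  set F := (v - 2 * o) % q with hF
  have hdiv : q * k + F = v - 2 * o := Nat.div_add_mod _ _
  have hFlt : F < q := Nat.mod_lt _ hqpos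
  have hk1 : 1 ≤ k := by
    rw [hk, Nat.one_le_div_iff hqpos]
    omega
  have hsum : v = 6 * m * S * k + 2 * o + F + r * r * k := by
    have e : q * k = r * r * k + 6 * m * S * k := by rw [hq]; ring
    rw [e] at hdiv
    omega
  obtain ⟨hNpos, hmain⟩ := construct2_log hC m o r k F v hm ho hr1 hk1 hsum
  rw [← hdm] at hNpos hmain
  have hkR : (1 : ℝ) ≤ k := by exact_mod_cast hk1
  -- lower bound for the number of new vertices
  have e1 : (v : ℝ) = q * k + F + 2 * o := by
    have : v = q * k + F + 2 * o := by omega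
    exact_mod_cast this
  have hFR : (F : ℝ) ≤ q := by exact_mod_cast hFlt.le
  have hoq : (2 * o : ℝ) ≤ q := by
    have : 2 * o ≤ q := by
      have h5 : 0 < 6 * m * S := by positivity
      have h6 : 6 * 2 ≤ 6 * m * S := by
        calc 6 * 2 ≤ 6 * m := by omega
          _ ≤ 6 * m * S := Nat.le_mul_of_pos_right _ (by omega)
      omega
    exact_mod_cast this
  have hkr : (v : ℝ) * (r * r) / q - C ≤ (r : ℝ) * r * k := by
    rw [sub_le_iff_le_add, div_le_iff₀ hqR, e1, hC1]
    have : 0 ≤ ((r : ℝ) * r) * (q + q - F - 2 * o) := by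
      apply mul_nonneg (by positivity)
      linarith
    nlinarith
  -- logarithm of `k`
  have hlogk : Real.log v - K ≤ Real.log k := by
    have h5 : (v : ℝ) ≤ 2 * q * k := by
      have h6 : v < q * k + q + 2 * o := by omega
      have h7 : 4 * (2 * o + q) + 1 ≤ v := by omega
      have : v ≤ 2 * q * k := by
        have e : 2 * q * k = q * k + q * k := by ring
        rw [e]
        omega
      exact_mod_cast this
    have h6 := Real.log_le_log (by linarith) h5
    rw [Real.log_mul (by positivity) (by positivity)] at h6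
    linarith
  have hfac := log_factorial_ge k hk1
  -- the estimate
  set N : ℝ := (r : ℝ) * r * k with hN
  have hN0 : 0 ≤ N := by positivity
  have h7 : N * (P * (Real.log v - K) - (m - 1)) ≤
      ((m : ℝ) - 1) * (r * r) * (Real.log (k.factorial)) +
      ((m : ℝ) - 1) * (2 * m + o) * (r * r * k) * Real.log k := by
    have h8 : ((m : ℝ) - 1) * (r * r) * ((k : ℝ) * Real.log k - k) ≤
        ((m : ℝ) - 1) * (r * r) * (Real.log (k.factorial)) :=
      mul_le_mul_of_nonneg_left hfac (mul_nonneg (by linarith) (by positivity))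
    have h9 : N * (P * (Real.log v - K)) ≤ N * (P * Real.log k) :=
      mul_le_mul_of_nonneg_left (mul_le_mul_of_nonneg_left hlogk hP0) hN0
    have h10 : ((m : ℝ) - 1) * (r * r) * ((k : ℝ) * Real.log k - k) +
        ((m : ℝ) - 1) * (2 * m + o) * (r * r * k) * Real.log k =
        N * (P * Real.log k) - N * (m - 1) := by
      rw [hN, hP, hdm]
      push_cast
      ring
    linarith
  have h8 : N * (P * (Real.log v - K) - (m - 1)) ≤
      Real.log (numTypes d v) + ((v : ℝ) - N) * Real.log v := h7.trans hmain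
  have h9 : ((v : ℝ) * (r * r) / q - C) * ((P + 1) * Real.log v - K') ≤
      N * ((P + 1) * Real.log v - K') :=
    mul_le_mul_of_nonneg_right hkr (by linarith)
  have hRq : (r : ℝ) * r ≤ q := by
    have : ((r * r : ℕ) : ℝ) ≤ q := by
      have : r * r ≤ q := by rw [hq]; omega
      exact_mod_cast this
    push_cast at this
    exact this
  have h8' : N * ((P + 1) * Real.log v - K') ≤ Real.log (numTypes d v) + v * Real.log v := by
    have e : N * ((P + 1) * Real.log v - K') =
        N * (P * (Real.log v - K) - (m - 1)) + N * Real.log v := by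
      rw [hK']; ring
    rw [e]
    have e2 : ((v : ℝ) - N) * Real.log v = v * Real.log v - N * Real.log v := by ring
    rw [e2] at h8
    linarith
  have h10 : c * v * Real.log v ≤ Real.log (numTypes d v) :=
    asymp2_est v (Real.log v) c a P C K' N _ q (r * r) (by linarith) hL0 hqR hRq ha hK'0 hC0
      h1 h2 h8' h9
  have hNR : (0 : ℝ) < numTypes d v := by exact_mod_cast hNpos
  rw [Real.rpow_def_of_pos (by linarith), ← Real.le_log_iff_exp_le hNR]
  linarith

/-- the real form -/
theorem lower2 (hC : Construct2) (d : ℕ) (hd : 4 ≤ d) (c : ℝ)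
    (hc : c < ((d : ℝ) + 1) * (((d / 2 : ℕ) : ℝ) - 1)) :
    ∀ᶠ v : ℕ in atTop, c ≤ Real.log (numTypes d v) / (v * Real.log v) := by
  filter_upwards [asymp2 hC d hd c hc, eventually_ge_atTop 2] with v h1 h2
  have hv : (2 : ℝ) ≤ v := by exact_mod_cast h2
  have hL : 0 < Real.log v := Real.log_pos (by linarith)
  have hpos : (0 : ℝ) < (v : ℝ) ^ (c * v) := Real.rpow_pos_of_pos (by linarith) _
  have h3 := Real.log_le_log hpos h1
  rw [Real.log_rpow (by linarith)] at h3
  rw [le_div_iff₀ (by positivity)]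
  linarith

/-- unconditional lower bound -/
theorem lower (d : ℕ) (hd : 4 ≤ d) (c : ℝ)
    (hc : c < ((d : ℝ) + 1) * (((d / 2 : ℕ) : ℝ) - 1)) :
    ∀ᶠ v : ℕ in atTop, c ≤ Real.log (numTypes d v) / (v * Real.log v) :=
  lower2 construct2 d hd c hc

end Pool.Agent.H4.Pol2
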