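import Pool.Agent.H54.Pol.Alg

/-!
# MP_18b2cf_co, part B: choice of the small parameters
-/

set_option autoImplicit false

namespace Pool.Agent.H54.Pol

open Finset Filter Topology

variable {g o : ℕ}

/-- thresholds of a code -/
noncomputable def Tc {N : ℕ} (β : Grp g o → Fin N) (γ : Grp g o) : ℝ := ((β γ : ℕ) : ℝ) + 1 / 2

lemma Tc_pos {N : ℕ} (β : Grp g o → Fin N) (γ : Grp g o) : 0 ≤ Tc β γ := by
  unfold Tc; positivity

/-- integer offsets -/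
def offZ : Fin 3 → ℤ := ![1, 2, -2]

lemma off_eq (κ : Fin 3) : off κ = (offZ κ : ℝ) := by
  fin_cases κ <;> simp [off, offZ]

lemma offZ_bound (κ : Fin 3) : -2 ≤ offZ κ ∧ offZ κ ≤ 2 := by
  fin_cases κ <;> simp [offZ]

lemma offZ_inj {κ κ' : Fin 3} (h : offZ κ = offZ κ') : κ = κ' := by
  revert h
  fin_cases κ <;> fin_cases κ' <;> simp [offZ]

lemma continuous_par (B j s : ℕ) (κ : Fin 3) (t : ℕ) : Continuous (fun ε => par B ε j s κ t) := by
  unfold par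
  fun_prop

lemma par_zero (B j s : ℕ) (κ : Fin 3) (t : ℕ) : par B 0 j s κ t = 8 * (s + 1) + off κ := by
  simp [par]

lemma continuous_Val (m : ℝ) (T : Grp g o → ℝ) (a : ℝ → Fin g → ℝ) (e : Fin o → ℝ)
    (ha : ∀ j, Continuous (fun ε => a ε j)) : Continuous (fun ε => Val m ε T (a ε) e) := by
  unfold Val dot av wv w0
  fun_prop

lemma continuous_Rf (m : ℝ) (T : Grp g o → ℝ) : Continuous (fun ε => Rf m ε T) := by
  unfold Rf
  exact continuous_Val m T (fun _ _ => m + 1) _ (fun j => continuous_const)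

lemma Rf_zero (m : ℝ) (T : Grp g o → ℝ) : Rf m 0 T = g * m ^ 2 + o * (3 / 2) := by
  unfold Rf Val dot av wv w0
  simp
  ring

lemma sg_le (γ : Grp g o) (i : Fin o) : sg γ i ≤ 1 := by
  rcases γ with ⟨j₀, _ | _⟩ | i₀ | _ | _ <;> simp [sg]
  split_ifs <;> norm_num

/-- (A2): functionals of another class are far below -/
lemma ev_other {r B N : ℕ} (hg : 0 < g) (β : Grp g o → Fin N) (s s' : Fin r) (hs : s ≠ s')
    (κ : Fin g → Fin 3) (t : Fin g → Fin B) (γ : Grp g o) :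
    ∀ᶠ ε in 𝓝[>] (0 : ℝ), Val (8 * ((s' : ℕ) + 1 : ℝ)) ε (Tc β)
      (fun j => par B ε j s (κ j) (t j)) (sg γ) < Rf (8 * ((s' : ℕ) + 1 : ℝ)) ε (Tc β) - 3 := by
  have hc : Continuous (fun ε => Val (8 * ((s' : ℕ) + 1 : ℝ)) ε (Tc β)
      (fun j => par B ε j s (κ j) (t j)) (sg γ) - Rf (8 * ((s' : ℕ) + 1 : ℝ)) ε (Tc β)) :=
    (continuous_Val _ _ _ _ (fun j => continuous_par _ _ _ _ _)).sub (continuous_Rf _ _)
  have h0 : Val (8 * ((s' : ℕ) + 1 : ℝ)) 0 (Tc β)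
      (fun j => par B 0 j s (κ j) (t j)) (sg γ) - Rf (8 * ((s' : ℕ) + 1 : ℝ)) 0 (Tc β) < -3 := by
    rw [Val_sub]
    simp only [zero_mul, add_zero, par_zero]
    have h1 : ∑ i, (sg γ i - 1) * w0 0 (Tc β) i ≤ 0 := by
      apply Finset.sum_nonpos
      intro i _
      have := sg_le γ i
      have h2 : w0 0 (Tc β) i = 3 / 2 := by simp [w0]
      rw [h2]
      linarith
    have h2 : ∀ j ∈ (Finset.univ : Finset (Fin g)),
        -((8 * (((s : ℕ) : ℝ) + 1) + off (κ j) - 8 * (((s' : ℕ) : ℝ) + 1)) ^ 2 - 1) ≤ -35 := by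
      intro j _
      have hz : (36 : ℤ) ≤ (8 * ((s : ℕ) - (s' : ℕ) : ℤ) + offZ (κ j)) ^ 2 := by
        have hb := offZ_bound (κ j)
        have hne : (s : ℕ) ≠ (s' : ℕ) := fun h => hs (Fin.ext h)
        rcases Nat.lt_or_gt_of_ne hne with h | h
        · have : (8 * ((s : ℕ) - (s' : ℕ) : ℤ) + offZ (κ j)) ≤ -6 := by omega
          nlinarith
        · have : 6 ≤ (8 * ((s : ℕ) - (s' : ℕ) : ℤ) + offZ (κ j)) := by omega
          nlinarith
      have hr : (36 : ℝ) ≤ (8 * (((s : ℕ) : ℝ) - ((s' : ℕ) : ℝ)) + offZ (κ j)) ^ 2 := by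
        exact_mod_cast hz
      rw [off_eq]
      have e : 8 * (((s : ℕ) : ℝ) + 1) + (offZ (κ j) : ℝ) - 8 * (((s' : ℕ) : ℝ) + 1) =
          8 * (((s : ℕ) : ℝ) - ((s' : ℕ) : ℝ)) + offZ (κ j) := by ring
      rw [e]
      linarith
    have h3 := Finset.sum_le_card_nsmul _ _ _ h2
    simp only [Finset.card_univ, Fintype.card_fin, nsmul_eq_mul] at h3
    have hg' : (1 : ℝ) ≤ g := by exact_mod_cast hg
    nlinarith
  have h1 := (hc.tendsto 0).eventually_lt_const h0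
  filter_upwards [nhdsWithin_le_nhds h1] with ε hε
  linarith

/-- (A1) -/
lemma ev_group {r B N : ℕ} (β : Grp g o → Fin N) (γ : Grp g o) (t : Fin g → Fin B) (s : Fin r) :
    ∀ᶠ ε in 𝓝[>] (0 : ℝ),
      ((Tc β γ < ∑ j : Fin g, ((t j : ℕ) : ℝ) * (B : ℝ) ^ (j : ℕ)) →
        cl (8 * ((s : ℕ) + 1 : ℝ)) ε (Tc β) (lv γ) <
          Val (8 * ((s : ℕ) + 1 : ℝ)) ε (Tc β) (fun j => par B ε j s (kap γ j) (t j)) (sg γ)) ∧
      ((∑ j : Fin g, ((t j : ℕ) : ℝ) * (B : ℝ) ^ (j : ℕ)) < Tc β γ →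
        Val (8 * ((s : ℕ) + 1 : ℝ)) ε (Tc β) (fun j => par B ε j s (kap γ j) (t j)) (sg γ) <
          cl (8 * ((s : ℕ) + 1 : ℝ)) ε (Tc β) (lv γ)) := by
  have hG := (continuous_Gf B (Tc β) γ (fun j => (t j : ℕ))).tendsto 0
  rw [Gf_zero] at hG
  rw [eventually_and]
  constructor
  · rw [eventually_imp_distrib_left]
    intro h
    have h1 := hG.eventually_const_lt (show (0 : ℝ) < _ by linarith)
    filter_upwards [nhdsWithin_le_nhds h1, self_mem_nhdsWithin] with ε h2 h3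
    have h4 := Val_group B (Tc β) γ (fun j => (t j : ℕ)) s ε
    have h5 : 0 < ε * Gf B (Tc β) γ (fun j => (t j : ℕ)) ε := mul_pos h3 h2
    linarith
  · rw [eventually_imp_distrib_left]
    intro h
    have h1 := hG.eventually_lt_const (show _ < (0 : ℝ) by linarith)
    filter_upwards [nhdsWithin_le_nhds h1, self_mem_nhdsWithin] with ε h2 h3
    have h4 := Val_group B (Tc β) γ (fun j => (t j : ℕ)) s ε
    have h5 : ε * Gf B (Tc β) γ (fun j => (t j : ℕ)) ε < 0 := mul_neg_of_pos_of_neg h3 h2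
    linarith

/-- (A5) -/
lemma ev_disc {r N : ℕ} (hg : 0 < g) (β : Grp g o → Fin N) (s : Fin r) :
    ∀ᶠ ε in 𝓝[>] (0 : ℝ), (bb ε (Tc β)) ^ 2 < 4 * cc (8 * ((s : ℕ) + 1 : ℝ)) ε (Tc β) := by
  set m : ℝ := 8 * ((s : ℕ) + 1 : ℝ) with hm
  have hm8 : 8 ≤ m := by
    have : (0 : ℝ) ≤ ((s : ℕ) : ℝ) := Nat.cast_nonneg _
    rw [hm]
    linarith
  have hc : Continuous (fun ε : ℝ => (ε * (Tc β (Sum.inr (Sum.inr true)) -
      Tc β (Sum.inr (Sum.inr false))) / 2) ^ 2 - 4 * (Rf m ε (Tc β) - 3) * kp ε (Tc β)) := by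
    have h1 := continuous_Rf m (Tc β)
    have h2 : Continuous (fun ε => kp ε (Tc β)) := by
      unfold kp
      fun_prop
    fun_prop
  have h0 : (0 * (Tc β (Sum.inr (Sum.inr true)) -
      Tc β (Sum.inr (Sum.inr false))) / 2) ^ 2 - 4 * (Rf m 0 (Tc β) - 3) * kp 0 (Tc β) < 0 := by
    rw [Rf_zero]
    have hg' : (1 : ℝ) ≤ g := by exact_mod_cast hg
    have ho : (0 : ℝ) ≤ o := Nat.cast_nonneg _
    have hk : kp 0 (Tc β) = 3 := by simp [kp]
    rw [hk]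
    nlinarith
  filter_upwards [nhdsWithin_le_nhds ((hc.tendsto 0).eventually_lt_const h0), self_mem_nhdsWithin]
    with ε h1 h2
  have hk : 0 < kp ε (Tc β) := kp_pos (le_of_lt h2) (Tc_pos β)
  have e1 : bb ε (Tc β) = (ε * (Tc β (Sum.inr (Sum.inr true)) -
      Tc β (Sum.inr (Sum.inr false))) / 2) / kp ε (Tc β) := by
    unfold bb
    field_simp
  have e2 : 4 * cc m ε (Tc β) = 4 * (Rf m ε (Tc β) - 3) * kp ε (Tc β) / (kp ε (Tc β)) ^ 2 := by
    unfold cc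
    field_simp
  rw [e1, e2, div_pow]
  apply div_lt_div_of_pos_right _ (by positivity)
  linarith

lemma ev_par_pos {r B : ℕ} (j : Fin g) (s : Fin r) (κ : Fin 3) (t : Fin B) :
    ∀ᶠ ε in 𝓝[>] (0 : ℝ), 0 < par B ε j s κ t := by
  have h0 : 0 < par B 0 j s κ t := by
    rw [par_zero, off_eq]
    have h1 := (offZ_bound κ).1
    have h2 : (-2 : ℝ) ≤ (offZ κ : ℝ) := by exact_mod_cast h1
    have : (0 : ℝ) ≤ ((s : ℕ) : ℝ) := Nat.cast_nonneg _
    linarith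
  exact nhdsWithin_le_nhds (((continuous_par B j s κ t).tendsto 0).eventually_const_lt h0)

lemma ev_par_inj {r B : ℕ} (j : Fin g) (p q : Fin r × Fin 3 × Fin B) (hpq : p ≠ q) :
    ∀ᶠ ε in 𝓝[>] (0 : ℝ), par B ε j p.1 p.2.1 p.2.2 ≠ par B ε j q.1 q.2.1 q.2.2 := by
  obtain ⟨s, κ, t⟩ := p
  obtain ⟨s', κ', t'⟩ := q
  by_cases h : s = s' ∧ κ = κ'
  · obtain ⟨rfl, rfl⟩ := h
    have ht : t ≠ t' := by
      rintro rfl
      exact hpq rfl
    filter_upwards [self_mem_nhdsWithin] with ε hε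
    intro hcon
    simp only [par] at hcon
    have hB : (B : ℝ) ^ (j : ℕ) ≠ 0 := by
      have : 0 < B := t.pos
      positivity
    have h1 : ε * ((t : ℕ) * (B : ℝ) ^ (j : ℕ) / (2 * off κ)) =
        ε * ((t' : ℕ) * (B : ℝ) ^ (j : ℕ) / (2 * off κ)) := by linarith
    have h2 := mul_left_cancel₀ (ne_of_gt hε) h1
    have hoff := off_ne κ
    rw [div_left_inj' (by positivity)] at h2
    have h3 := mul_right_cancel₀ hB h2
    apply ht
    apply Fin.ext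
    exact_mod_cast h3
  · have hne : par B 0 j s κ t - par B 0 j s' κ' t' ≠ 0 := by
      rw [par_zero, par_zero, off_eq, off_eq]
      intro hcon
      have h1 : (8 * (((s : ℕ) : ℤ) + 1) + offZ κ) - (8 * (((s' : ℕ) : ℤ) + 1) + offZ κ') = 0 := by
        exact_mod_cast hcon
      have hb := offZ_bound κ
      have hb' := offZ_bound κ'
      have h2 : (s : ℕ) = (s' : ℕ) := by omega
      have h3 : offZ κ = offZ κ' := by omega
      exact h ⟨Fin.ext h2, offZ_inj h3⟩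
    have hc := ((continuous_par B j s κ t).sub (continuous_par B j s' κ' t')).tendsto 0
    filter_upwards [nhdsWithin_le_nhds (hc.eventually_ne hne)] with ε hε
    intro hcon
    exact hε (by simpa using sub_eq_zero.2 hcon)

/-- **Choice of `ε`.** -/
theorem exists_eps (g o r B : ℕ) (hg : 0 < g) :
    ∃ ε : ℝ, 0 < ε ∧
      (∀ (j : Fin g) (s : Fin r) (κ : Fin 3) (t : Fin B), 0 < par B ε j s κ t) ∧
      (∀ (j : Fin g) (p q : Fin r × Fin 3 × Fin B), p ≠ q →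
        par B ε j p.1 p.2.1 p.2.2 ≠ par B ε j q.1 q.2.1 q.2.2) ∧
      (∀ (β : Grp g o → Fin (B ^ g)) (γ : Grp g o) (t : Fin g → Fin B) (s : Fin r),
        ((Tc β γ < ∑ j : Fin g, ((t j : ℕ) : ℝ) * (B : ℝ) ^ (j : ℕ)) →
          cl (8 * ((s : ℕ) + 1 : ℝ)) ε (Tc β) (lv γ) <
            Val (8 * ((s : ℕ) + 1 : ℝ)) ε (Tc β) (fun j => par B ε j s (kap γ j) (t j)) (sg γ)) ∧
        ((∑ j : Fin g, ((t j : ℕ) : ℝ) * (B : ℝ) ^ (j : ℕ)) < Tc β γ →
          Val (8 * ((s : ℕ) + 1 : ℝ)) ε (Tc β) (fun j => par B ε j s (kap γ j) (t j)) (sg γ) <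
            cl (8 * ((s : ℕ) + 1 : ℝ)) ε (Tc β) (lv γ))) ∧
      (∀ (β : Grp g o → Fin (B ^ g)) (s s' : Fin r), s ≠ s' → ∀ (κ : Fin g → Fin 3)
        (t : Fin g → Fin B) (γ : Grp g o), Val (8 * ((s' : ℕ) + 1 : ℝ)) ε (Tc β)
          (fun j => par B ε j s (κ j) (t j)) (sg γ) < Rf (8 * ((s' : ℕ) + 1 : ℝ)) ε (Tc β) - 3) ∧
      (∀ (β : Grp g o → Fin (B ^ g)) (s : Fin r),
        (bb ε (Tc β)) ^ 2 < 4 * cc (8 * ((s : ℕ) + 1 : ℝ)) ε (Tc β)) := by
  have h1 : ∀ᶠ ε in 𝓝[>] (0 : ℝ), ∀ (j : Fin g) (s : Fin r) (κ : Fin 3) (t : Fin B),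
      0 < par B ε j s κ t := by
    simp only [eventually_all]
    exact fun j s κ t => ev_par_pos j s κ t
  have h2 : ∀ᶠ ε in 𝓝[>] (0 : ℝ), ∀ (j : Fin g) (p q : Fin r × Fin 3 × Fin B), p ≠ q →
      par B ε j p.1 p.2.1 p.2.2 ≠ par B ε j q.1 q.2.1 q.2.2 := by
    rw [eventually_all]; intro j
    rw [eventually_all]; intro p
    rw [eventually_all]; intro q
    rw [eventually_imp_distrib_left]
    exact fun h => ev_par_inj j p q h
  have h3 := fun (β : Grp g o → Fin (B ^ g)) (γ : Grp g o) (t : Fin g → Fin B) (s : Fin r) =>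
    ev_group β γ t s
  simp only [← eventually_all] at h3
  have h4 : ∀ᶠ ε in 𝓝[>] (0 : ℝ), ∀ (β : Grp g o → Fin (B ^ g)) (s s' : Fin r), s ≠ s' →
      ∀ (κ : Fin g → Fin 3) (t : Fin g → Fin B) (γ : Grp g o), Val (8 * ((s' : ℕ) + 1 : ℝ)) ε (Tc β)
          (fun j => par B ε j s (κ j) (t j)) (sg γ) < Rf (8 * ((s' : ℕ) + 1 : ℝ)) ε (Tc β) - 3 := by
    rw [eventually_all]; intro β
    rw [eventually_all]; intro s
    rw [eventually_all]; intro s'
    rw [eventually_imp_distrib_left]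
    intro hs
    rw [eventually_all]; intro κ
    rw [eventually_all]; intro t
    rw [eventually_all]; intro γ
    exact ev_other hg β s s' hs κ t γ
  have h5 := fun (β : Grp g o → Fin (B ^ g)) (s : Fin r) => ev_disc hg β s
  simp only [← eventually_all] at h5
  have h0 : ∀ᶠ ε in 𝓝[>] (0 : ℝ), 0 < ε := self_mem_nhdsWithin
  obtain ⟨ε, e0, e1, e2, e3, e4, e5⟩ := (h0.and (h1.and (h2.and (h3.and (h4.and h5))))).exists
  exact ⟨ε, e0, e1, e2, e3, e4, e5⟩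

/-- **Choice of `h`.** -/
theorem exists_h {I : Type} [Finite I] (g : ℕ) (P : Fin g → I → ℝ) (hpos : ∀ j i, 0 < P j i)
    (hinj : ∀ j i i', i ≠ i' → P j i ≠ P j i') :
    ∃ h : ℝ, 0 < h ∧ (∀ j i, h < P j i) ∧ ∀ j i i', i ≠ i' → 2 * h < |P j i - P j i'| := by
  have h1 : ∀ᶠ h in 𝓝[>] (0 : ℝ), ∀ j i, h < P j i := by
    rw [eventually_all]; intro j
    rw [eventually_all]; intro i
    exact nhdsWithin_le_nhds (eventually_lt_nhds (hpos j i))
  have h2 : ∀ᶠ h in 𝓝[>] (0 : ℝ), ∀ j i i', i ≠ i' → 2 * h < |P j i - P j i'| := by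
    rw [eventually_all]; intro j
    rw [eventually_all]; intro i
    rw [eventually_all]; intro i'
    rw [eventually_imp_distrib_left]
    intro hne
    have h3 : 0 < |P j i - P j i'| := abs_pos.2 (sub_ne_zero.2 (hinj j i i' hne))
    have h4 : Tendsto (fun h : ℝ => 2 * h) (𝓝 0) (𝓝 (2 * 0)) := (continuous_const_mul 2).tendsto 0
    rw [mul_zero] at h4
    exact nhdsWithin_le_nhds (h4.eventually_lt_const h3)
  have h0 : ∀ᶠ ε in 𝓝[>] (0 : ℝ), 0 < ε := self_mem_nhdsWithin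
  obtain ⟨h, e0, e1, e2⟩ := (h0.and (h1.and h2)).exists
  exact ⟨h, e0, e1, e2⟩

end Pool.Agent.H54.Pol
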