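import Pool.Agent.H54.Pol.Fam

/-!
# MP_18b2cf_co, part B: values of the functionals, exposedness, faces
-/

set_option autoImplicit false

namespace Pool.Agent.H54.Pol

open Finset Filter Topology

variable {g o r B k F : ℕ}

/-! ## sign lemmas -/

lemma sgn_far {P P' h δ : ℝ} (b : Bool) (hh : 0 < h) (hsep : 2 * h < |P - P'|)
    (hδ : |δ| ≤ h / 2) : 0 < (P + δ - P') * (P + δ - (P' + sb b * h)) := by
  rw [abs_le] at hδ
  have hs := sb_cases b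
  rcases lt_abs.1 hsep with h1 | h1
  · apply mul_pos
    · linarith
    · rcases hs with h2 | h2 <;> rw [h2] <;> linarith
  · apply mul_pos_of_neg_of_neg
    · linarith
    · rcases hs with h2 | h2 <;> rw [h2] <;> linarith

lemma nat_far {a b : ℕ} (h : a ≠ b) : 1 ≤ |(a : ℝ) - b| := by
  have h1 : (1 : ℤ) ≤ |(a : ℤ) - b| := by
    apply Int.one_le_abs
    omega
  exact_mod_cast h1

lemma prod_pos_of_far {D x y : ℝ} (hD : 1 ≤ |D|) (hx : |x| < 1) (hy : |y| < 1) :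
    0 < (D + x) * (D + y) := by
  rw [abs_lt] at hx hy
  rcases le_abs.1 hD with h | h
  · apply mul_pos <;> linarith
  · apply mul_pos_of_neg_of_neg <;> linarith

lemma fin4_le (n : Fin 4) : ((n : ℕ) : ℝ) ≤ 3 := by
  have : (n : ℕ) ≤ 3 := by omega
  exact_mod_cast this

lemma fin3_le (n : Fin 3) : ((n : ℕ) : ℝ) ≤ 2 := by
  have : (n : ℕ) ≤ 2 := by omega
  exact_mod_cast this

lemma sl_ge (i : Fin k) : 1 ≤ sl i := by
  unfold sl
  have : (0 : ℝ) ≤ ((i : ℕ) : ℝ) := Nat.cast_nonneg _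
  linarith

section

variable {ε h lam : ℝ} (Gd : Good g o r B k ε h lam)
include Gd

/-! ## denominators -/

lemma Good.den_W (j : Fin g) (p : Fin r × Fin 3 × Fin B) (b : Bool) :
    0 < 1 + pr ε B j p * (pr ε B j p + sb b * h) := by
  have h1 := Gd.h_lt j p
  have h2 := Gd.h_pos
  change h < pr ε B j p at h1
  have h3 : 0 < pr ε B j p + sb b * h := by
    rcases sb_cases b with h4 | h4 <;> rw [h4] <;> linarith
  have h4 : 0 < pr ε B j p := by linarith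
  positivity

lemma Good.den_P (i : Fin k) (n : Fin 4) :
    0 < 1 + (sl i + lam * ((n : ℕ) - 2 : ℝ)) * (sl i + lam * ((n : ℕ) - 1 : ℝ)) := by
  have h1 := sl_ge i
  have h2 := Gd.lam_le
  have h3 := Gd.lam_pos
  have h4 : (0 : ℝ) ≤ ((n : ℕ) : ℝ) := Nat.cast_nonneg _
  have h5 : 0 < sl i + lam * ((n : ℕ) - 2 : ℝ) := by nlinarith
  have h6 : 0 < sl i + lam * ((n : ℕ) - 1 : ℝ) := by nlinarith
  positivity

lemma Good.den_F (i : ℕ) :
    0 < 1 + (k + (i : ℝ) + 1) * (k + (i : ℝ) + 1 + lam) := by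
  have h3 := Gd.lam_pos
  positivity

lemma Good.den' (β : Cds g o r B k) (i : Fin k) (s : Fin r) :
    0 < 1 + (sl i) ^ 2 - lam * bb ε (Tc (β (i, s))) * sl i +
      lam ^ 2 * cc (ms s) ε (Tc (β (i, s))) := Gd.den (β (i, s)) s i

/-! ## values in the first plane -/

lemma Good.P_far (i i₀ : Fin k) (hi : i ≠ i₀) (n : Fin 4) (τ : ℝ) (hτ : |τ| ≤ 3 / 2) :
    dot (av (sl i₀ + lam * τ))
      (qv (sl i + lam * ((n : ℕ) - 2 : ℝ)) (sl i + lam * ((n : ℕ) - 1 : ℝ))) < 1 := by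
  apply dot_qv_lt _ _ _ (Gd.den_P i n)
  have h2 := Gd.lam_le
  have h3 := Gd.lam_pos
  have h4 : (0 : ℝ) ≤ ((n : ℕ) : ℝ) := Nat.cast_nonneg _
  have h5 := fin4_le n
  rw [abs_le] at hτ
  have hD : 1 ≤ |((i₀ : ℕ) : ℝ) - ((i : ℕ) : ℝ)| :=
    nat_far (fun h => hi (Fin.ext h.symm))
  have e1 : sl i₀ + lam * τ - (sl i + lam * ((n : ℕ) - 2 : ℝ)) =
      (((i₀ : ℕ) : ℝ) - ((i : ℕ) : ℝ)) + lam * (τ - (n : ℕ) + 2) := by unfold sl; ring
  have e2 : sl i₀ + lam * τ - (sl i + lam * ((n : ℕ) - 1 : ℝ)) =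
      (((i₀ : ℕ) : ℝ) - ((i : ℕ) : ℝ)) + lam * (τ - (n : ℕ) + 1) := by unfold sl; ring
  rw [e1, e2]
  apply prod_pos_of_far hD
  · rw [abs_lt]; constructor <;> nlinarith
  · rw [abs_lt]; constructor <;> nlinarith

lemma Good.P_near (i : Fin k) (n : Fin 4) (τ : ℝ) :
    dot (av (sl i + lam * τ))
      (qv (sl i + lam * ((n : ℕ) - 2 : ℝ)) (sl i + lam * ((n : ℕ) - 1 : ℝ))) =
    1 - lam ^ 2 * ((τ - (n : ℕ) + 2) * (τ - (n : ℕ) + 1)) /
      (1 + (sl i + lam * ((n : ℕ) - 2 : ℝ)) * (sl i + lam * ((n : ℕ) - 1 : ℝ))) := by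
  rw [dot_qv _ _ _ (Gd.den_P i n)]
  congr 2
  ring

lemma Good.F_far (i₀ : Fin k) (i : ℕ) (τ : ℝ) (hτ : |τ| ≤ 3 / 2) :
    dot (av (sl i₀ + lam * τ)) (qv (k + (i : ℝ) + 1) (k + (i : ℝ) + 1 + lam)) < 1 := by
  apply dot_qv_lt _ _ _ (Gd.den_F i)
  have h2 := Gd.lam_le
  have h3 := Gd.lam_pos
  rw [abs_le] at hτ
  have h4 : ((i₀ : ℕ) : ℝ) + 1 ≤ k := by exact_mod_cast i₀.2
  have h5 : (0 : ℝ) ≤ (i : ℝ) := Nat.cast_nonneg _
  unfold sl
  apply mul_pos_of_neg_of_neg <;> nlinarith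

/-- new points are below every line in the first plane -/
lemma Good.N_lt (β : Cds g o r B k) (i : Fin k) (s : Fin r) (σ : ℝ) :
    dot (av σ) (Nx ε lam β i s) < 1 := by
  have hden := Gd.den' β i s
  unfold Nx
  rw [dot_xv hden.ne']
  have hC : 0 < Cf (ms s) ε (Tc (β (i, s))) (sl i) lam := by
    unfold Cf
    exact one_div_pos.2 hden
  have hd := Gd.disc (β (i, s)) s
  have h3 := Gd.lam_pos
  set b := bb ε (Tc (β (i, s)))
  have hq : 0 < (σ - sl i) ^ 2 + lam * b * (σ - sl i) +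
      lam ^ 2 * cc (ms s) ε (Tc (β (i, s))) := by
    have e : (σ - sl i) ^ 2 + lam * b * (σ - sl i) + lam ^ 2 * cc (ms s) ε (Tc (β (i, s))) =
        ((σ - sl i) + lam * b / 2) ^ 2 + lam ^ 2 * (4 * cc (ms s) ε (Tc (β (i, s))) - b ^ 2) / 4 := by
      ring
    rw [e]
    have h4 : 0 < 4 * cc (ms s) ε (Tc (β (i, s))) - b ^ 2 := sub_pos.2 hd
    positivity
  have := mul_pos hC hq
  linarith

lemma Good.Nr_pos (β : Cds g o r B k) (i : Fin k) (s : Fin r) : 0 < Nr ε lam β i s := by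
  have hden := Gd.den' β i s
  have hC : 0 < Cf (ms s) ε (Tc (β (i, s))) (sl i) lam := by
    unfold Cf
    exact one_div_pos.2 hden
  have hk := kp_pos Gd.eps.le (Tc_pos (β (i, s)))
  have h3 := Gd.lam_pos
  unfold Nr rho
  positivity

/-! ## the functionals of the facets -/

end

/-- functional with parameters: slot `i₀`, cut `l`, class `s₀`, offsets `κ`, digits `t`, group `γ`
(for the signs) -/
noncomputable def L0 (ε lam : ℝ) (i₀ : Fin k) (l : Fin 3) (s₀ : Fin r) (κ : Fin g → Fin 3)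
    (t : Fin g → Fin B) (γ : Grp g o) : Xs g o →ₗ[ℝ] ℝ :=
  Lf (av (sl i₀ + lam * (((l : ℕ) : ℝ) - 1))) (fun j => av (par B ε j s₀ (κ j) (t j))) (sg γ)

section

variable {ε h lam : ℝ} (Gd : Good g o r B k ε h lam)
include Gd

omit Gd in
lemma l_abs (l : Fin 3) : |((l : ℕ) : ℝ) - 1| ≤ 3 / 2 := by
  have h1 := fin3_le l
  have h2 : (0 : ℝ) ≤ ((l : ℕ) : ℝ) := Nat.cast_nonneg _
  rw [abs_le]
  constructor <;> linarith

lemma Good.L0_W (β : Cds g o r B k) (i₀ : Fin k) (l : Fin 3) (s₀ : Fin r) (κ : Fin g → Fin 3)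
    (t : Fin g → Fin B) (γ : Grp g o) (j : Fin g) (p : Fin r × Fin 3 × Fin B) (b : Bool) :
    L0 ε lam i₀ l s₀ κ t γ (Vf (F := F) ε h lam β (Sum.inl (j, p, b))) ≤ 1 ∧
    (p = (s₀, κ j, t j) → L0 ε lam i₀ l s₀ κ t γ (Vf (F := F) ε h lam β (Sum.inl (j, p, b))) = 1) := by
  unfold L0
  rw [Lf_W]
  by_cases hp : p = (s₀, κ j, t j)
  · have e : dot (av (par B ε j s₀ (κ j) (t j))) (qv (pr ε B j p) (pr ε B j p + sb b * h)) = 1 := by
      have : par B ε j s₀ (κ j) (t j) = pr ε B j p := by rw [hp]; rfl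
      rw [this]
      exact dot_qv_left _ _ (Gd.den_W j p b)
    exact ⟨e.le, fun _ => e⟩
  · refine ⟨?_, fun h => absurd h hp⟩
    apply le_of_lt
    apply dot_qv_lt _ _ _ (Gd.den_W j p b)
    have h1 := Gd.h_sep j (s₀, κ j, t j) p (fun h => hp h.symm)
    have h2 := sgn_far (P := par B ε j s₀ (κ j) (t j)) (P' := pr ε B j p) (δ := 0) b Gd.h_pos h1
      (by rw [abs_zero]; linarith [Gd.h_pos])
    simpa using h2

omit Gd in
lemma L0_O (β : Cds g o r B k) (i₀ : Fin k) (l : Fin 3) (s₀ : Fin r) (κ : Fin g → Fin 3)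
    (t : Fin g → Fin B) (γ : Grp g o) (i : Fin o) (b : Bool) :
    L0 ε lam i₀ l s₀ κ t γ (Vf (F := F) ε h lam β (Sum.inr (Sum.inl (i, b)))) = sg γ i * sb b := by
  unfold L0
  rw [Lf_O]

omit Gd in
lemma sg_cases (γ : Grp g o) (i : Fin o) : sg γ i = 1 ∨ sg γ i = -1 := by
  rcases γ with ⟨j₀, _ | _⟩ | i₀ | _ | _ <;> simp only [sg]
  · left; trivial
  · left; trivial
  · by_cases h : i = i₀
    · right; rw [if_pos h]
    · left; rw [if_neg h]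
  · left; trivial
  · left; trivial

omit Gd in
lemma L0_O_le (β : Cds g o r B k) (i₀ : Fin k) (l : Fin 3) (s₀ : Fin r) (κ : Fin g → Fin 3)
    (t : Fin g → Fin B) (γ : Grp g o) (i : Fin o) (b : Bool) :
    L0 ε lam i₀ l s₀ κ t γ (Vf (F := F) ε h lam β (Sum.inr (Sum.inl (i, b)))) ≤ 1 := by
  rw [L0_O]
  rcases sg_cases γ i with h1 | h1 <;> rcases sb_cases b with h2 | h2 <;> rw [h1, h2] <;> norm_num

lemma Good.L0_P (β : Cds g o r B k) (i₀ : Fin k) (l : Fin 3) (s₀ : Fin r) (κ : Fin g → Fin 3)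
    (t : Fin g → Fin B) (γ : Grp g o) (i : Fin k) (n : Fin 4) :
    L0 ε lam i₀ l s₀ κ t γ (Vf (F := F) ε h lam β (Sum.inr (Sum.inr (Sum.inl (i, n))))) ≤ 1 ∧
    (i = i₀ → ((n : ℕ) = l ∨ (n : ℕ) = l + 1) →
      L0 ε lam i₀ l s₀ κ t γ (Vf (F := F) ε h lam β (Sum.inr (Sum.inr (Sum.inl (i, n))))) = 1) ∧
    ((n : ℕ) ≠ l → (n : ℕ) ≠ l + 1 →
      L0 ε lam i₀ l s₀ κ t γ (Vf (F := F) ε h lam β (Sum.inr (Sum.inr (Sum.inl (i, n))))) < 1) := by
  unfold L0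
  rw [Lf_P]
  by_cases hi : i = i₀
  · subst hi
    rw [Gd.P_near]
    have hD := Gd.den_P i n
    have hl := pow_pos Gd.lam_pos 2
    have e : (((l : ℕ) : ℝ) - 1 - ((n : ℕ) : ℝ) + 2) * (((l : ℕ) : ℝ) - 1 - ((n : ℕ) : ℝ) + 1) =
        ((((l : ℕ) : ℤ) - ((n : ℕ) : ℤ) + 1) * (((l : ℕ) : ℤ) - ((n : ℕ) : ℤ)) : ℤ) := by
      push_cast
      ring
    have hnn : (0 : ℤ) ≤ (((l : ℕ) : ℤ) - ((n : ℕ) : ℤ) + 1) * (((l : ℕ) : ℤ) - ((n : ℕ) : ℤ)) := by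
      rcases lt_or_ge ((l : ℕ) : ℤ) ((n : ℕ) : ℤ) with h1 | h1
      · apply mul_nonneg_of_nonpos_of_nonpos <;> omega
      · apply mul_nonneg <;> omega
    have hnnR : (0 : ℝ) ≤ (((l : ℕ) : ℝ) - 1 - ((n : ℕ) : ℝ) + 2) *
        (((l : ℕ) : ℝ) - 1 - ((n : ℕ) : ℝ) + 1) := by
      rw [e]
      exact_mod_cast hnn
    refine ⟨?_, ?_, ?_⟩
    · have := div_nonneg (mul_nonneg hl.le hnnR) hD.le
      linarith
    · intro _ hn
      rcases hn with hn | hn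
      · rw [hn]; simp
      · rw [hn]
        push_cast
        have : (((l : ℕ) : ℝ) - 1 - (((l : ℕ) : ℝ) + 1) + 2) = 0 := by ring
        rw [this]
        simp
    · intro h1 h2
      have hne : (((l : ℕ) : ℤ) - ((n : ℕ) : ℤ) + 1) * (((l : ℕ) : ℤ) - ((n : ℕ) : ℤ)) ≠ 0 := by
        apply mul_ne_zero <;> omega
      have hpos : (0 : ℝ) < (((l : ℕ) : ℝ) - 1 - ((n : ℕ) : ℝ) + 2) *
          (((l : ℕ) : ℝ) - 1 - ((n : ℕ) : ℝ) + 1) := by
        rw [e]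
        exact_mod_cast lt_of_le_of_ne hnn hne.symm
      have := div_pos (mul_pos hl hpos) hD
      linarith
  · have h1 := Gd.P_far i i₀ hi n (((l : ℕ) : ℝ) - 1) (l_abs l)
    exact ⟨h1.le, fun h => absurd h hi, fun _ _ => h1⟩

lemma Good.L0_F (β : Cds g o r B k) (i₀ : Fin k) (l : Fin 3) (s₀ : Fin r) (κ : Fin g → Fin 3)
    (t : Fin g → Fin B) (γ : Grp g o) (i : Fin F) :
    L0 ε lam i₀ l s₀ κ t γ (Vf (F := F) ε h lam β (Sum.inr (Sum.inr (Sum.inr (Sum.inl i))))) < 1 := by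
  unfold L0
  rw [Lf_F]
  exact Gd.F_far i₀ i _ (l_abs l)

/-- value at a new point of the same slot -/
lemma Good.L0_N (β : Cds g o r B k) (i₀ : Fin k) (l : Fin 3) (s₀ : Fin r) (κ : Fin g → Fin 3)
    (t : Fin g → Fin B) (γ : Grp g o) (s : Fin r) :
    L0 ε lam i₀ l s₀ κ t γ
      (Vf (F := F) ε h lam β (Sum.inr (Sum.inr (Sum.inr (Sum.inr (i₀, s)))))) - 1 =
    Nr ε lam β i₀ s * (Val (ms s) ε (Tc (β (i₀, s))) (fun j => par B ε j s₀ (κ j) (t j)) (sg γ) -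
      cl (ms s) ε (Tc (β (i₀, s))) l) := by
  unfold L0
  rw [Lf_N]
  have hden := Gd.den' β i₀ s
  have hk := kp_pos Gd.eps.le (Tc_pos (β (i₀, s)))
  unfold Nx
  rw [dot_xv hden.ne']
  rw [← cl_eq hk.ne']
  unfold Nr rho Val
  have e1 : sl i₀ + lam * (((l : ℕ) : ℝ) - 1) - sl i₀ = lam * (((l : ℕ) : ℝ) - 1) := by ring
  rw [e1]
  have hk' := hk.ne'
  field_simp
  ring

/-- value at a new point of another slot -/
lemma Good.L0_N_far (β : Cds g o r B k) (i₀ : Fin k) (l : Fin 3) (s₀ : Fin r) (κ : Fin g → Fin 3)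
    (t : Fin g → Fin B) (γ : Grp g o) (i : Fin k) (hi : i ≠ i₀) (s : Fin r) :
    L0 ε lam i₀ l s₀ κ t γ
      (Vf (F := F) ε h lam β (Sum.inr (Sum.inr (Sum.inr (Sum.inr (i, s)))))) < 1 := by
  unfold L0
  rw [Lf_N]
  have hden := Gd.den' β i s
  have hk := kp_pos Gd.eps.le (Tc_pos (β (i, s)))
  have hC : 0 < Cf (ms s) ε (Tc (β (i, s))) (sl i) lam := by
    unfold Cf
    exact one_div_pos.2 hden
  have hfar := Gd.far (β (i, s)) s i i₀ hi s₀ κ t γ l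
  have h1 := mul_neg_of_pos_of_neg hC hfar
  unfold Nx
  rw [dot_xv hden.ne']
  unfold Nr rho
  have e1 : sl i₀ + lam * (((l : ℕ) : ℝ) - 1) - sl i =
      ((i₀ : ℕ) : ℝ) - ((i : ℕ) : ℝ) + lam * (((l : ℕ) : ℝ) - 1) := by unfold sl; ring
  rw [e1]
  unfold Val at h1
  have e2 : Cf (ms s) ε (Tc (β (i, s))) (sl i) lam * lam ^ 2 / kp ε (Tc (β (i, s))) =
      Cf (ms s) ε (Tc (β (i, s))) (sl i) lam * (lam ^ 2 / kp ε (Tc (β (i, s)))) := by ring
  rw [e2]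
  unfold ms at h1 ⊢
  linarith

end

end Pool.Agent.H54.Pol
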