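import Pool.Agent.H54.Pol.Lam
import Pool.Agent.H4.Pol.Defs

/-!
# MP_18b2cf_co, part B: the family of vertices and its linear functionals
-/

set_option autoImplicit false

namespace Pool.Agent.H54.Pol

open Finset Filter Topology

/-- index set of the vertices: base points in the planes `j`, on the lines, in the first plane,
fillers, new points -/
abbrev Ix (g o r B k F : ℕ) :=
  (Fin g × (Fin r × Fin 3 × Fin B) × Bool) ⊕ ((Fin o × Bool) ⊕ ((Fin k × Fin 4) ⊕
    (Fin F ⊕ (Fin k × Fin r))))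

/-- the space -/
abbrev Xs (g o : ℕ) := (ℝ × ℝ) × (Fin g → ℝ × ℝ) × (Fin o → ℝ)

variable {g o r B k F : ℕ}

/-- codes of all new points -/
abbrev Cds (g o r B k : ℕ) := Fin k × Fin r → Grp g o → Fin (B ^ g)

/-- parameter of a base point -/
noncomputable def pr (ε : ℝ) (B : ℕ) (j : Fin g) (p : Fin r × Fin 3 × Fin B) : ℝ :=
  par B ε j p.1 p.2.1 p.2.2

/-- class centre -/
noncomputable def ms (s : Fin r) : ℝ := 8 * ((s : ℕ) + 1 : ℝ)

/-- slot centre -/
noncomputable def sl (i : Fin k) : ℝ := ((i : ℕ) : ℝ) + 1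

/-- first coordinate of the new point -/
noncomputable def Nx (ε lam : ℝ) (β : Cds g o r B k) (i : Fin k) (s : Fin r) : ℝ × ℝ :=
  xv (ms s) ε (Tc (β (i, s))) (sl i) lam

/-- scaling factor of the new point -/
noncomputable def Nr (ε lam : ℝ) (β : Cds g o r B k) (i : Fin k) (s : Fin r) : ℝ :=
  rho (ms s) ε (Tc (β (i, s))) (sl i) lam

/-- the vertices -/
noncomputable def Vf (ε h lam : ℝ) (β : Cds g o r B k) : Ix g o r B k F → Xs g o
  | Sum.inl (j, p, b) => (0, Pi.single j (qv (pr ε B j p) (pr ε B j p + sb b * h)), 0)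
  | Sum.inr (Sum.inl (i, b)) => (0, 0, Pi.single i (sb b))
  | Sum.inr (Sum.inr (Sum.inl (i, n))) =>
      (qv (sl i + lam * ((n : ℕ) - 2 : ℝ)) (sl i + lam * ((n : ℕ) - 1 : ℝ)), 0, 0)
  | Sum.inr (Sum.inr (Sum.inr (Sum.inl i))) =>
      (qv (k + ((i : ℕ) : ℝ) + 1) (k + ((i : ℕ) : ℝ) + 1 + lam), 0, 0)
  | Sum.inr (Sum.inr (Sum.inr (Sum.inr (i, s)))) =>
      (Nx ε lam β i s, fun j => Nr ε lam β i s • wv (ms s) ε (Tc (β (i, s))) j,
        fun i' => Nr ε lam β i s * w0 ε (Tc (β (i, s))) i')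

/-- linear functionals -/
def Lf (α : ℝ × ℝ) (A : Fin g → ℝ × ℝ) (e : Fin o → ℝ) : Xs g o →ₗ[ℝ] ℝ where
  toFun X := dot α X.1 + ∑ j, dot (A j) (X.2.1 j) + ∑ i, e i * X.2.2 i
  map_add' X Y := by
    simp only [dot, Prod.fst_add, Prod.snd_add, Pi.add_apply, mul_add, Finset.sum_add_distrib]
    ring
  map_smul' c X := by
    simp only [dot, Prod.smul_fst, Prod.smul_snd, Pi.smul_apply, smul_eq_mul, RingHom.id_apply,
      mul_add, Finset.mul_sum, Finset.sum_add_distrib]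
    congr 1
    · congr 1
      · ring
      · congr 1 <;> (apply Finset.sum_congr rfl; intro j _; ring)
    · apply Finset.sum_congr rfl; intro j _; ring

lemma dot_zero_left (a : ℝ × ℝ) : dot 0 a = 0 := by simp [dot]

lemma dot_zero_right (a : ℝ × ℝ) : dot a 0 = 0 := by simp [dot]

lemma dot_smul_right (a b : ℝ × ℝ) (c : ℝ) : dot a (c • b) = c * dot a b := by
  simp [dot]; ring

lemma dot_single_right (A : Fin g → ℝ × ℝ) (j : Fin g) (q : ℝ × ℝ) :
    ∑ j', dot (A j') ((Pi.single j q : Fin g → ℝ × ℝ) j') = dot (A j) q := by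
  rw [Finset.sum_eq_single j]
  · simp
  · intro j' _ hj
    rw [Pi.single_eq_of_ne hj, dot_zero_right]
  · intro h
    exact absurd (Finset.mem_univ j) h

lemma dot_single_left (W : Fin g → ℝ × ℝ) (j : Fin g) (q : ℝ × ℝ) :
    ∑ j', dot ((Pi.single j q : Fin g → ℝ × ℝ) j') (W j') = dot q (W j) := by
  rw [Finset.sum_eq_single j]
  · simp
  · intro j' _ hj
    rw [Pi.single_eq_of_ne hj, dot_zero_left]
  · intro h
    exact absurd (Finset.mem_univ j) h

section values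

variable (ε h lam : ℝ) (β : Cds g o r B k) (α : ℝ × ℝ) (A : Fin g → ℝ × ℝ) (e : Fin o → ℝ)

lemma Lf_apply (X : Xs g o) :
    Lf α A e X = dot α X.1 + ∑ j, dot (A j) (X.2.1 j) + ∑ i, e i * X.2.2 i := rfl

lemma Lf_W (j : Fin g) (p : Fin r × Fin 3 × Fin B) (b : Bool) :
    Lf α A e (Vf (F := F) ε h lam β (Sum.inl (j, p, b))) =
      dot (A j) (qv (pr ε B j p) (pr ε B j p + sb b * h)) := by
  rw [Lf_apply]
  simp only [Vf]
  rw [dot_zero_right, dot_single_right]
  simp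

lemma Lf_O (i : Fin o) (b : Bool) :
    Lf α A e (Vf (F := F) ε h lam β (Sum.inr (Sum.inl (i, b)))) = e i * sb b := by
  rw [Lf_apply]
  simp only [Vf]
  rw [dot_zero_right]
  simp [dot_zero_right, Pi.single_apply]

lemma Lf_P (i : Fin k) (n : Fin 4) :
    Lf α A e (Vf (F := F) ε h lam β (Sum.inr (Sum.inr (Sum.inl (i, n))))) =
      dot α (qv (sl i + lam * ((n : ℕ) - 2 : ℝ)) (sl i + lam * ((n : ℕ) - 1 : ℝ))) := by
  rw [Lf_apply]
  simp [Vf, dot_zero_right]

lemma Lf_F (i : Fin F) :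
    Lf α A e (Vf (F := F) ε h lam β (Sum.inr (Sum.inr (Sum.inr (Sum.inl i))))) =
      dot α (qv (k + ((i : ℕ) : ℝ) + 1) (k + ((i : ℕ) : ℝ) + 1 + lam)) := by
  rw [Lf_apply]
  simp [Vf, dot_zero_right]

lemma Lf_N (i : Fin k) (s : Fin r) :
    Lf α A e (Vf (F := F) ε h lam β (Sum.inr (Sum.inr (Sum.inr (Sum.inr (i, s)))))) =
      dot α (Nx ε lam β i s) + Nr ε lam β i s *
        (∑ j, dot (A j) (wv (ms s) ε (Tc (β (i, s))) j) + ∑ i', e i' * w0 ε (Tc (β (i, s))) i') := by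
  rw [Lf_apply]
  simp only [Vf, dot_smul_right]
  rw [mul_add, Finset.mul_sum, Finset.mul_sum, add_assoc]
  congr 2
  apply Finset.sum_congr rfl
  intro i' _
  ring

end values

/-- every linear functional vanishing on a basis of this form is zero -/
lemma ext_zero (φ : Xs g o →ₗ[ℝ] ℝ)
    (h1 : ∀ x : ℝ × ℝ, φ (x, 0, 0) = 0)
    (h2 : ∀ (j : Fin g) (y : ℝ × ℝ), φ (0, Pi.single j y, 0) = 0)
    (h3 : ∀ (i : Fin o) (z : ℝ), φ (0, 0, Pi.single i z) = 0) : φ = 0 := by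
  apply LinearMap.prod_ext
  · apply LinearMap.ext
    intro x
    exact h1 x
  · apply LinearMap.prod_ext
    · apply LinearMap.pi_ext
      intro j y
      exact h2 j y
    · apply LinearMap.pi_ext
      intro i z
      exact h3 i z

/-- a linear functional on the plane vanishing on two independent vectors is zero -/
lemma plane_zero {φ : (ℝ × ℝ) →ₗ[ℝ] ℝ} (a b : ℝ × ℝ) (hdet : a.1 * b.2 - a.2 * b.1 ≠ 0)
    (ha : φ a = 0) (hb : φ b = 0) (x : ℝ × ℝ) : φ x = 0 := by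
  have e : ∀ x : ℝ × ℝ, φ x = x.1 * φ (1, 0) + x.2 * φ (0, 1) := by
    intro x
    have h : x = x.1 • ((1, 0) : ℝ × ℝ) + x.2 • ((0, 1) : ℝ × ℝ) := by
      ext <;> simp
    conv_lhs => rw [h]
    rw [map_add, map_smul, map_smul, smul_eq_mul, smul_eq_mul]
  rw [e] at ha hb ⊢
  have h1 : (a.1 * b.2 - a.2 * b.1) * φ (1, 0) = 0 := by linear_combination b.2 * ha - a.2 * hb
  have h2 : (a.1 * b.2 - a.2 * b.1) * φ (0, 1) = 0 := by linear_combination a.1 * hb - b.1 * ha
  have h3 := (mul_eq_zero.1 h1).resolve_left hdet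
  have h4 := (mul_eq_zero.1 h2).resolve_left hdet
  rw [h3, h4]
  ring

/-- two points sharing one parameter are independent -/
lemma qv_det (s t t' : ℝ) (h : 0 < 1 + s * t) (h' : 0 < 1 + s * t') (hne : t ≠ t') :
    (qv s t).1 * (qv s t').2 - (qv s t).2 * (qv s t').1 ≠ 0 := by
  have e : (qv s t).1 * (qv s t').2 - (qv s t).2 * (qv s t').1 =
      (t' - t) / ((1 + s * t) * (1 + s * t')) := by
    simp only [qv]
    have h1 := h.ne'
    have h2 := h'.ne'
    field_simp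
    ring
  rw [e]
  exact div_ne_zero (sub_ne_zero.2 hne.symm) (mul_pos h h').ne'

lemma qv_comm (s t : ℝ) : qv s t = qv t s := by
  simp only [qv]
  rw [add_comm s t, mul_comm s t]

end Pool.Agent.H54.Pol
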