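import Pool.Agent.H54.Pol.Eps

/-!
# MP_18b2cf_co, part B: choice of `λ`; all conditions together
-/

set_option autoImplicit false

namespace Pool.Agent.H54.Pol

open Finset Filter Topology

/-- sign of a Boolean -/
def sb (b : Bool) : ℝ := if b then 1 else -1

lemma sb_cases (b : Bool) : sb b = 1 ∨ sb b = -1 := by
  cases b <;> simp [sb]

/-- scaling factor of the new point -/
noncomputable def rho {g o : ℕ} (m ε : ℝ) (T : Grp g o → ℝ) (σ₀ lam : ℝ) : ℝ :=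
  Cf m ε T σ₀ lam * lam ^ 2 / kp ε T

/-- All conditions on the small parameters. -/
structure Good (g o r B k : ℕ) (ε h lam : ℝ) : Prop where
  eps : 0 < ε
  par_pos : ∀ (j : Fin g) (s : Fin r) (κ : Fin 3) (t : Fin B), 0 < par B ε j s κ t
  grp : ∀ (β : Grp g o → Fin (B ^ g)) (γ : Grp g o) (t : Fin g → Fin B) (s : Fin r),
        ((Tc β γ < ∑ j : Fin g, ((t j : ℕ) : ℝ) * (B : ℝ) ^ (j : ℕ)) →
          cl (8 * ((s : ℕ) + 1 : ℝ)) ε (Tc β) (lv γ) <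
            Val (8 * ((s : ℕ) + 1 : ℝ)) ε (Tc β) (fun j => par B ε j s (kap γ j) (t j)) (sg γ)) ∧
        ((∑ j : Fin g, ((t j : ℕ) : ℝ) * (B : ℝ) ^ (j : ℕ)) < Tc β γ →
          Val (8 * ((s : ℕ) + 1 : ℝ)) ε (Tc β) (fun j => par B ε j s (kap γ j) (t j)) (sg γ) <
            cl (8 * ((s : ℕ) + 1 : ℝ)) ε (Tc β) (lv γ))
  other : ∀ (β : Grp g o → Fin (B ^ g)) (s s' : Fin r), s ≠ s' → ∀ (κ : Fin g → Fin 3)
        (t : Fin g → Fin B) (γ : Grp g o), Val (8 * ((s' : ℕ) + 1 : ℝ)) ε (Tc β)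
          (fun j => par B ε j s (κ j) (t j)) (sg γ) < Rf (8 * ((s' : ℕ) + 1 : ℝ)) ε (Tc β) - 3
  disc : ∀ (β : Grp g o → Fin (B ^ g)) (s : Fin r),
        (bb ε (Tc β)) ^ 2 < 4 * cc (8 * ((s : ℕ) + 1 : ℝ)) ε (Tc β)
  h_pos : 0 < h
  h_lt : ∀ (j : Fin g) (p : Fin r × Fin 3 × Fin B), h < par B ε j p.1 p.2.1 p.2.2
  h_sep : ∀ (j : Fin g) (p q : Fin r × Fin 3 × Fin B), p ≠ q →
        2 * h < |par B ε j p.1 p.2.1 p.2.2 - par B ε j q.1 q.2.1 q.2.2|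
  lam_pos : 0 < lam
  lam_le : lam ≤ 1 / 8
  den : ∀ (β : Grp g o → Fin (B ^ g)) (s : Fin r) (i : Fin k),
        0 < 1 + (((i : ℕ) : ℝ) + 1) ^ 2 - lam * bb ε (Tc β) * (((i : ℕ) : ℝ) + 1) +
          lam ^ 2 * cc (8 * ((s : ℕ) + 1 : ℝ)) ε (Tc β)
  expW : ∀ (β : Grp g o → Fin (B ^ g)) (s : Fin r) (i : Fin k) (j : Fin g)
        (p : Fin r × Fin 3 × Fin B) (b : Bool),
        rho (8 * ((s : ℕ) + 1 : ℝ)) ε (Tc β) (((i : ℕ) : ℝ) + 1) lam *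
          dot (av (par B ε j p.1 p.2.1 p.2.2 + sb b * h / 2))
            (wv (8 * ((s : ℕ) + 1 : ℝ)) ε (Tc β) j) < 1
  expO : ∀ (β : Grp g o → Fin (B ^ g)) (s : Fin r) (i : Fin k) (i' : Fin o) (b : Bool),
        sb b * (rho (8 * ((s : ℕ) + 1 : ℝ)) ε (Tc β) (((i : ℕ) : ℝ) + 1) lam *
          w0 ε (Tc β) i') < 1
  far : ∀ (β : Grp g o → Fin (B ^ g)) (s : Fin r) (i i₀ : Fin k), i ≠ i₀ → ∀ (s₁ : Fin r)
        (κ : Fin g → Fin 3) (t : Fin g → Fin B) (γ : Grp g o) (l : Fin 3),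
        lam ^ 2 / kp ε (Tc β) * Val (8 * ((s : ℕ) + 1 : ℝ)) ε (Tc β)
          (fun j => par B ε j s₁ (κ j) (t j)) (sg γ) -
        ((((i₀ : ℕ) : ℝ) - ((i : ℕ) : ℝ) + lam * (((l : ℕ) : ℝ) - 1)) ^ 2 +
          lam * bb ε (Tc β) * (((i₀ : ℕ) : ℝ) - ((i : ℕ) : ℝ) + lam * (((l : ℕ) : ℝ) - 1)) +
          lam ^ 2 * cc (8 * ((s : ℕ) + 1 : ℝ)) ε (Tc β)) < 0

lemma tendsto_rho {g o : ℕ} (m ε : ℝ) (T : Grp g o → ℝ) (σ₀ : ℝ) :
    Tendsto (fun lam => rho m ε T σ₀ lam) (𝓝 0) (𝓝 0) := by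
  have h1 : ContinuousAt (fun lam : ℝ => Cf m ε T σ₀ lam) 0 := by
    unfold Cf
    apply ContinuousAt.div continuousAt_const
    · fun_prop
    · simp
      positivity
  have h2 : ContinuousAt (fun lam : ℝ => Cf m ε T σ₀ lam * lam ^ 2 / kp ε T) 0 :=
    (h1.mul ((continuous_pow 2).continuousAt)).div_const _
  have h3 := h2.tendsto
  simpa [rho] using h3

theorem exists_good (g o r B k : ℕ) (hg : 0 < g) : ∃ ε h lam : ℝ, Good g o r B k ε h lam := by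
  obtain ⟨ε, e0, e1, e2, e3, e4, e5⟩ := exists_eps g o r B hg
  obtain ⟨h, h0, h1, h2⟩ := exists_h g
    (fun (j : Fin g) (p : Fin r × Fin 3 × Fin B) => par B ε j p.1 p.2.1 p.2.2)
    (fun j p => e1 j p.1 p.2.1 p.2.2) (fun j p q hpq => e2 j p q hpq)
  have l0 : ∀ᶠ lam in 𝓝[>] (0 : ℝ), 0 < lam := self_mem_nhdsWithin
  have l1 : ∀ᶠ lam in 𝓝[>] (0 : ℝ), lam ≤ 1 / 8 :=
    nhdsWithin_le_nhds (eventually_le_nhds (by norm_num))
  have l2 : ∀ᶠ lam in 𝓝[>] (0 : ℝ), ∀ (β : Grp g o → Fin (B ^ g)) (s : Fin r) (i : Fin k),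
        0 < 1 + (((i : ℕ) : ℝ) + 1) ^ 2 - lam * bb ε (Tc β) * (((i : ℕ) : ℝ) + 1) +
          lam ^ 2 * cc (8 * ((s : ℕ) + 1 : ℝ)) ε (Tc β) := by
    simp only [eventually_all]
    intro β s i
    have hc : Continuous (fun lam : ℝ => 1 + (((i : ℕ) : ℝ) + 1) ^ 2 -
        lam * bb ε (Tc β) * (((i : ℕ) : ℝ) + 1) + lam ^ 2 * cc (8 * ((s : ℕ) + 1 : ℝ)) ε (Tc β)) := by
      fun_prop
    apply nhdsWithin_le_nhds
    apply (hc.tendsto 0).eventually_const_lt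
    simp
    positivity
  have l3 : ∀ᶠ lam in 𝓝[>] (0 : ℝ), ∀ (β : Grp g o → Fin (B ^ g)) (s : Fin r) (i : Fin k)
        (j : Fin g) (p : Fin r × Fin 3 × Fin B) (b : Bool),
        rho (8 * ((s : ℕ) + 1 : ℝ)) ε (Tc β) (((i : ℕ) : ℝ) + 1) lam *
          dot (av (par B ε j p.1 p.2.1 p.2.2 + sb b * h / 2))
            (wv (8 * ((s : ℕ) + 1 : ℝ)) ε (Tc β) j) < 1 := by
    rw [eventually_all]; intro β
    rw [eventually_all]; intro s
    rw [eventually_all]; intro i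
    rw [eventually_all]; intro j
    rw [eventually_all]; intro p
    rw [eventually_all]; intro b
    have h3 := (tendsto_rho (8 * ((s : ℕ) + 1 : ℝ)) ε (Tc β) (((i : ℕ) : ℝ) + 1)).mul_const
      (dot (av (par B ε j p.1 p.2.1 p.2.2 + sb b * h / 2))
            (wv (8 * ((s : ℕ) + 1 : ℝ)) ε (Tc β) j))
    rw [zero_mul] at h3
    exact nhdsWithin_le_nhds (h3.eventually_lt_const one_pos)
  have l4 : ∀ᶠ lam in 𝓝[>] (0 : ℝ), ∀ (β : Grp g o → Fin (B ^ g)) (s : Fin r) (i : Fin k)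
        (i' : Fin o) (b : Bool),
        sb b * (rho (8 * ((s : ℕ) + 1 : ℝ)) ε (Tc β) (((i : ℕ) : ℝ) + 1) lam *
          w0 ε (Tc β) i') < 1 := by
    rw [eventually_all]; intro β
    rw [eventually_all]; intro s
    rw [eventually_all]; intro i
    rw [eventually_all]; intro i'
    rw [eventually_all]; intro b
    have h3 := ((tendsto_rho (8 * ((s : ℕ) + 1 : ℝ)) ε (Tc β) (((i : ℕ) : ℝ) + 1)).mul_const
      (w0 ε (Tc β) i')).const_mul (sb b)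
    rw [zero_mul, mul_zero] at h3
    exact nhdsWithin_le_nhds (h3.eventually_lt_const one_pos)
  have l5 : ∀ᶠ lam in 𝓝[>] (0 : ℝ), ∀ (β : Grp g o → Fin (B ^ g)) (s : Fin r) (i i₀ : Fin k),
        i ≠ i₀ → ∀ (s₁ : Fin r) (κ : Fin g → Fin 3) (t : Fin g → Fin B) (γ : Grp g o) (l : Fin 3),
        lam ^ 2 / kp ε (Tc β) * Val (8 * ((s : ℕ) + 1 : ℝ)) ε (Tc β)
          (fun j => par B ε j s₁ (κ j) (t j)) (sg γ) -
        ((((i₀ : ℕ) : ℝ) - ((i : ℕ) : ℝ) + lam * (((l : ℕ) : ℝ) - 1)) ^ 2 +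
          lam * bb ε (Tc β) * (((i₀ : ℕ) : ℝ) - ((i : ℕ) : ℝ) + lam * (((l : ℕ) : ℝ) - 1)) +
          lam ^ 2 * cc (8 * ((s : ℕ) + 1 : ℝ)) ε (Tc β)) < 0 := by
    rw [eventually_all]; intro β
    rw [eventually_all]; intro s
    rw [eventually_all]; intro i
    rw [eventually_all]; intro i₀
    rw [eventually_imp_distrib_left]; intro hne
    rw [eventually_all]; intro s₁
    rw [eventually_all]; intro κ
    rw [eventually_all]; intro t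
    rw [eventually_all]; intro γ
    rw [eventually_all]; intro l
    have hc : Continuous (fun lam : ℝ => lam ^ 2 / kp ε (Tc β) *
          Val (8 * ((s : ℕ) + 1 : ℝ)) ε (Tc β) (fun j => par B ε j s₁ (κ j) (t j)) (sg γ) -
        ((((i₀ : ℕ) : ℝ) - ((i : ℕ) : ℝ) + lam * (((l : ℕ) : ℝ) - 1)) ^ 2 +
          lam * bb ε (Tc β) * (((i₀ : ℕ) : ℝ) - ((i : ℕ) : ℝ) + lam * (((l : ℕ) : ℝ) - 1)) +
          lam ^ 2 * cc (8 * ((s : ℕ) + 1 : ℝ)) ε (Tc β))) := by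
      fun_prop
    apply nhdsWithin_le_nhds
    apply (hc.tendsto 0).eventually_lt_const
    have hne' : ((i₀ : ℕ) : ℝ) - ((i : ℕ) : ℝ) ≠ 0 := by
      rw [sub_ne_zero]
      intro hcon
      apply hne
      apply Fin.ext
      exact_mod_cast hcon.symm
    simp
    positivity
  obtain ⟨lam, m0, m1, m2, m3, m4, m5⟩ := (l0.and (l1.and (l2.and (l3.and (l4.and l5))))).exists
  exact ⟨ε, h, lam, ⟨e0, e1, e3, e4, e5, h0, h1, h2, m0, m1, m2, m3, m4, m5⟩⟩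

end Pool.Agent.H54.Pol
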