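import Pool.Agent.H54.Pol.Face
import Pool.Agent.H4.Pol.Count

/-!
# MP_18b2cf_co, part B: exposedness, separation of the codes, and the count
-/

set_option autoImplicit false

namespace Pool.Agent.H54.Pol

open Finset Filter Topology
open Pool.Agent.H4.Pol (FS Exp Full card_le numTypes)

variable {g o r B k F : ℕ}

/-! ## base vertices -/

/-- base indices -/
def IsBase : Ix g o r B k F → Prop
  | Sum.inr (Sum.inr (Sum.inr (Sum.inr _))) => False
  | _ => True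

lemma Vf_base (ε h lam : ℝ) (β β' : Cds g o r B k) (x : Ix g o r B k F) (hx : IsBase x) :
    Vf ε h lam β x = Vf ε h lam β' x := by
  rcases x with ⟨j, p, b⟩ | ⟨i, b⟩ | ⟨i, n⟩ | i | q
  · rfl
  · rfl
  · rfl
  · rfl
  · exact absurd hx (by simp [IsBase])

section

variable {ε h lam : ℝ} (Gd : Good g o r B k ε h lam)
include Gd

lemma Good.L0_base_le (β : Cds g o r B k) (i₀ : Fin k) (l : Fin 3) (s₀ : Fin r)
    (κ : Fin g → Fin 3) (t : Fin g → Fin B) (γ : Grp g o) (x : Ix g o r B k F) (hx : IsBase x) :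
    L0 ε lam i₀ l s₀ κ t γ (Vf ε h lam β x) ≤ 1 := by
  rcases x with ⟨j, p, b⟩ | ⟨i, b⟩ | ⟨i, n⟩ | i | q
  · exact (Gd.L0_W β i₀ l s₀ κ t γ j p b).1
  · exact L0_O_le β i₀ l s₀ κ t γ i b
  · exact (Gd.L0_P β i₀ l s₀ κ t γ i n).1
  · exact (Gd.L0_F β i₀ l s₀ κ t γ i).le
  · exact absurd hx (by simp [IsBase])

/-- the base vertices on the facet -/
def Tf (ε h lam : ℝ) (β : Cds g o r B k) (i₀ : Fin k) (l : Fin 3) (s₀ : Fin r)
    (κ : Fin g → Fin 3) (t : Fin g → Fin B) (γ : Grp g o) : Set (Ix g o r B k F) :=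
  {x | IsBase x ∧ L0 ε lam i₀ l s₀ κ t γ (Vf ε h lam β x) = 1}

/-- **Rigidity.** A functional which is constant on the base vertices of a facet is a multiple of
the functional of the facet. -/
lemma Good.rigid (β : Cds g o r B k) (i₀ : Fin k) (l : Fin 3) (s₀ : Fin r)
    (κ : Fin g → Fin 3) (t : Fin g → Fin B) (γ : Grp g o) (f : Xs g o →ₗ[ℝ] ℝ) (c : ℝ)
    (hf : ∀ x : Ix g o r B k F, x ∈ Tf (F := F) ε h lam β i₀ l s₀ κ t γ → f (Vf ε h lam β x) = c) :
    f = c • L0 ε lam i₀ l s₀ κ t γ := by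
  set φ : Xs g o →ₗ[ℝ] ℝ := f - c • L0 ε lam i₀ l s₀ κ t γ with hφ
  have hz : ∀ x : Ix g o r B k F, x ∈ Tf (F := F) ε h lam β i₀ l s₀ κ t γ →
      φ (Vf ε h lam β x) = 0 := by
    intro x hx
    rw [hφ, LinearMap.sub_apply, LinearMap.smul_apply, hf x hx, hx.2]
    simp
  suffices φ = 0 by
    rw [hφ] at this
    exact sub_eq_zero.1 this
  -- the three kinds of vertices
  have hP : ∀ n : Fin 4, ((n : ℕ) = l ∨ (n : ℕ) = l + 1) →
      φ (qv (sl i₀ + lam * ((n : ℕ) - 2 : ℝ)) (sl i₀ + lam * ((n : ℕ) - 1 : ℝ)), 0, 0) = 0 := by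
    intro n hn
    exact hz (Sum.inr (Sum.inr (Sum.inl (i₀, n)))) ⟨trivial, (Gd.L0_P β i₀ l s₀ κ t γ i₀ n).2.1 rfl hn⟩
  have hW : ∀ (j : Fin g) (b : Bool), φ (0, Pi.single j (qv (pr ε B j (s₀, κ j, t j))
      (pr ε B j (s₀, κ j, t j) + sb b * h)), 0) = 0 := by
    intro j b
    exact hz (Sum.inl (j, (s₀, κ j, t j), b))
      ⟨trivial, (Gd.L0_W β i₀ l s₀ κ t γ j (s₀, κ j, t j) b).2 rfl⟩
  have hO : ∀ (i : Fin o) (b : Bool), sg γ i * sb b = 1 →
      φ (0, 0, Pi.single i (sb b)) = 0 := by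
    intro i b hb
    refine hz (Sum.inr (Sum.inl (i, b))) ⟨trivial, ?_⟩
    rw [L0_O]
    exact hb
  apply ext_zero
  · -- first plane
    intro x
    have h1 := hP l.castSucc (Or.inl rfl)
    have h2 := hP l.succ (Or.inr (by simp))
    simp only [Fin.val_castSucc, Fin.val_succ] at h1 h2
    set σ := sl i₀ + lam * (((l : ℕ) : ℝ) - 1) with hσ
    have e1 : sl i₀ + lam * (((l : ℕ) : ℝ) - 2) = σ - lam := by rw [hσ]; ring
    have e2 : sl i₀ + lam * (((((l : ℕ) + 1 : ℕ)) : ℝ) - 2) = σ := by rw [hσ]; push_cast; ring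
    have e3 : sl i₀ + lam * (((((l : ℕ) + 1 : ℕ)) : ℝ) - 1) = σ + lam := by rw [hσ]; push_cast; ring
    rw [e1] at h1
    rw [e2, e3] at h2
    rw [qv_comm] at h1
    have hl := fin3_le l
    have h0 : (0 : ℝ) ≤ ((l : ℕ) : ℝ) := Nat.cast_nonneg _
    have hs := sl_ge i₀
    have hla := Gd.lam_le
    have hlp := Gd.lam_pos
    have hσp : 0 < σ - lam := by rw [hσ]; nlinarith
    have hσp' : 0 < σ := by linarith
    have hd := qv_det σ (σ - lam) (σ + lam) (by positivity) (by positivity) (by linarith)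
    exact plane_zero (φ := φ.comp (LinearMap.inl ℝ (ℝ × ℝ) ((Fin g → ℝ × ℝ) × (Fin o → ℝ)))) _ _ hd
      h1 h2 x
  · -- planes `j`
    intro j y
    have h1 := hW j true
    have h2 := hW j false
    have d1 := Gd.den_W j (s₀, κ j, t j) true
    have d2 := Gd.den_W j (s₀, κ j, t j) false
    have hd := qv_det _ _ _ d1 d2 (by simp [sb]; linarith [Gd.h_pos])
    exact plane_zero (φ := φ.comp ((LinearMap.inr ℝ (ℝ × ℝ) ((Fin g → ℝ × ℝ) × (Fin o → ℝ))).comp
      ((LinearMap.inl ℝ (Fin g → ℝ × ℝ) (Fin o → ℝ)).comp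
        (LinearMap.single ℝ (fun _ : Fin g => ℝ × ℝ) j)))) _ _ hd h1 h2 y
  · -- lines
    intro i z
    have hb : ∃ b : Bool, sg γ i * sb b = 1 ∧ sb b ≠ 0 := by
      rcases sg_cases γ i with h1 | h1
      · exact ⟨true, by simp [sb, h1], by simp [sb]⟩
      · exact ⟨false, by simp [sb, h1], by simp [sb]⟩
    obtain ⟨b, hb1, hb2⟩ := hb
    have h1 := hO i b hb1
    have e : ((0, 0, Pi.single i z) : Xs g o) = (z / sb b) • ((0, 0, Pi.single i (sb b)) : Xs g o) := by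
      refine Prod.ext ?_ (Prod.ext ?_ ?_)
      · simp
      · simp
      · funext i'
        by_cases hi : i' = i
        · subst hi
          simp [hb2]
        · simp [Pi.single_eq_of_ne hi]
    rw [e, map_smul, h1, smul_zero]

/-- the facet is a face if no new point is beyond it -/
lemma Good.mem_FS (β : Cds g o r B k) (i₀ : Fin k) (l : Fin 3) (s₀ : Fin r)
    (κ : Fin g → Fin 3) (t : Fin g → Fin B) (γ : Grp g o)
    (hN : ∀ s : Fin r, L0 ε lam i₀ l s₀ κ t γ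
      (Vf (F := F) ε h lam β (Sum.inr (Sum.inr (Sum.inr (Sum.inr (i₀, s)))))) < 1) :
    Tf (F := F) ε h lam β i₀ l s₀ κ t γ ∈ FS (Vf (F := F) ε h lam β) := by
  have hN' : ∀ (i : Fin k) (s : Fin r), L0 ε lam i₀ l s₀ κ t γ
      (Vf (F := F) ε h lam β (Sum.inr (Sum.inr (Sum.inr (Sum.inr (i, s)))))) < 1 := by
    intro i s
    by_cases hi : i = i₀
    · subst hi; exact hN s
    · exact Gd.L0_N_far β i₀ l s₀ κ t γ i hi s
  refine ⟨L0 ε lam i₀ l s₀ κ t γ, 1, ?_, ?_, ?_⟩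
  · intro x
    by_cases hx : IsBase x
    · exact Gd.L0_base_le β i₀ l s₀ κ t γ x hx
    · rcases x with ⟨j, p, b⟩ | ⟨i, b⟩ | ⟨i, n⟩ | i | ⟨i, s⟩
      · exact absurd trivial hx
      · exact absurd trivial hx
      · exact absurd trivial hx
      · exact absurd trivial hx
      · exact (hN' i s).le
  · ext x
    constructor
    · intro hx
      exact hx.2
    · intro hx
      refine ⟨?_, hx⟩
      by_contra hb
      rcases x with ⟨j, p, b⟩ | ⟨i, b⟩ | ⟨i, n⟩ | i | ⟨i, s⟩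
      · exact absurd trivial hb
      · exact absurd trivial hb
      · exact absurd trivial hb
      · exact absurd trivial hb
      · exact absurd hx (hN' i s).ne
  · exact ⟨Sum.inr (Sum.inr (Sum.inl (i₀, l.castSucc))), trivial,
      (Gd.L0_P β i₀ l s₀ κ t γ i₀ _).2.1 rfl (Or.inl rfl)⟩

omit Gd in
lemma exists_n (l : Fin 3) : ∃ n : Fin 4, (n : ℕ) ≠ l ∧ (n : ℕ) ≠ l + 1 := by
  fin_cases l
  · exact ⟨2, by simp⟩
  · exact ⟨0, by simp⟩
  · exact ⟨0, by simp⟩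

/-- the facet is not a face if a new point is beyond it -/
lemma Good.not_mem_FS (β : Cds g o r B k) (i₀ : Fin k) (l : Fin 3) (s₀ : Fin r)
    (κ : Fin g → Fin 3) (t : Fin g → Fin B) (γ : Grp g o) (s : Fin r)
    (hN : 1 < L0 ε lam i₀ l s₀ κ t γ
      (Vf (F := F) ε h lam β (Sum.inr (Sum.inr (Sum.inr (Sum.inr (i₀, s))))))) :
    Tf (F := F) ε h lam β i₀ l s₀ κ t γ ∉ FS (Vf (F := F) ε h lam β) := by
  rintro ⟨f, c, hle, hT, _⟩
  have hfc := Gd.rigid (F := F) β i₀ l s₀ κ t γ f c (by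
    intro x hx
    rw [hT] at hx
    exact hx)
  have h1 := hle (Sum.inr (Sum.inr (Sum.inr (Sum.inr (i₀, s)))))
  rw [hfc, LinearMap.smul_apply, smul_eq_mul] at h1
  obtain ⟨n, hn1, hn2⟩ := exists_n l
  have h2 := hle (Sum.inr (Sum.inr (Sum.inl (i₀, n))))
  rw [hfc, LinearMap.smul_apply, smul_eq_mul] at h2
  have h3 := (Gd.L0_P (F := F) β i₀ l s₀ κ t γ i₀ n).2.2 hn1 hn2
  have hc1 : c ≤ 0 := by
    by_contra hc
    push Not at hc
    nlinarith
  have hc2 : 0 ≤ c := by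
    by_contra hc
    push Not at hc
    nlinarith
  have hc : c = 0 := le_antisymm hc1 hc2
  have h4 : (Sum.inr (Sum.inr (Sum.inr (Sum.inr (i₀, s)))) : Ix g o r B k F) ∈
      Tf (F := F) ε h lam β i₀ l s₀ κ t γ := by
    rw [hT]
    show f _ = c
    rw [hfc, hc]
    simp
  exact absurd h4.1 (by simp [IsBase])

/-- `Full` -/
lemma Good.full (β : Cds g o r B k) (i₀ : Fin k) (s₀ : Fin r) (b₀ : Fin B) :
    Full (Vf (F := F) ε h lam β) := by
  intro f c hf
  have hfc := Gd.rigid (F := F) β i₀ 1 s₀ (fun _ => 0) (fun _ => b₀) (Sum.inr (Sum.inr false)) f c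
    (fun x _ => hf x)
  obtain ⟨n, hn1, hn2⟩ := exists_n 1
  have h3 := (Gd.L0_P (F := F) β i₀ 1 s₀ (fun _ => 0) (fun _ => b₀)
    (Sum.inr (Sum.inr false)) i₀ n).2.2 hn1 hn2
  have h2 := hf (Sum.inr (Sum.inr (Sum.inl (i₀, n))))
  rw [hfc, LinearMap.smul_apply, smul_eq_mul] at h2
  have hc : c = 0 := by
    by_contra hc
    have : L0 ε lam i₀ 1 s₀ (fun _ => 0) (fun _ => b₀) (Sum.inr (Sum.inr false))
        (Vf (F := F) ε h lam β (Sum.inr (Sum.inr (Sum.inl (i₀, n))))) = 1 :=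
      mul_left_cancel₀ hc (by rw [h2, mul_one])
    exact absurd this h3.ne
  rw [hfc, hc, zero_smul]

omit Gd in
lemma sb_ne {b b' : Bool} (h : b' ≠ b) : sb b' = -sb b := by
  cases b <;> cases b' <;> simp [sb] at h ⊢

/-- exposing functional of a base vertex in the plane `j` -/
lemma Good.exp_W (β : Cds g o r B k) (j : Fin g) (p : Fin r × Fin 3 × Fin B) (b : Bool) :
    ∃ l : Xs g o →ₗ[ℝ] ℝ, ∀ x : Ix g o r B k F, x ≠ Sum.inl (j, p, b) →
      l (Vf ε h lam β x) < l (Vf (F := F) ε h lam β (Sum.inl (j, p, b))) := by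
  refine ⟨Lf 0 (Pi.single j (av (pr ε B j p + sb b * h / 2))) 0, fun x hx => ?_⟩
  have hh := Gd.h_pos
  have h2 : (sb b) ^ 2 = 1 := by rcases sb_cases b with h | h <;> rw [h] <;> norm_num
  have htarget : 1 < Lf 0 (Pi.single j (av (pr ε B j p + sb b * h / 2))) 0
      (Vf (F := F) (o := o) (k := k) ε h lam β (Sum.inl (j, p, b))) := by
    rw [Lf_W, Pi.single_eq_same]
    apply dot_qv_gt _ _ _ (Gd.den_W j p b)
    have e : (pr ε B j p + sb b * h / 2 - pr ε B j p) *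
        (pr ε B j p + sb b * h / 2 - (pr ε B j p + sb b * h)) = -((sb b) ^ 2 * h ^ 2 / 4) := by ring
    rw [e, h2]
    have : 0 < h ^ 2 := by positivity
    linarith
  refine lt_trans ?_ htarget
  rcases x with ⟨j', p', b'⟩ | ⟨i, b'⟩ | ⟨i, n⟩ | i | ⟨i, s⟩
  · rw [Lf_W]
    by_cases hj : j' = j
    · subst hj
      rw [Pi.single_eq_same]
      apply dot_qv_lt _ _ _ (Gd.den_W j' p' b')
      by_cases hp : p' = p
      · subst hp
        have hb : b' ≠ b := by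
          rintro rfl
          exact hx rfl
        rw [sb_ne hb]
        have e : (pr ε B j' p' + sb b * h / 2 - pr ε B j' p') *
            (pr ε B j' p' + sb b * h / 2 - (pr ε B j' p' + -sb b * h)) =
            3 * ((sb b) ^ 2 * h ^ 2 / 4) := by ring
        rw [e, h2]
        positivity
      · have h1 := Gd.h_sep j' p p' (fun h => hp h.symm)
        have h3 := sgn_far (P := pr ε B j' p) (P' := pr ε B j' p') (δ := sb b * h / 2) b' hh h1 (by
          rcases sb_cases b with h | h <;> rw [h] <;> rw [abs_le] <;> constructor <;> linarith)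
        exact h3
    · rw [Pi.single_eq_of_ne hj, dot_zero_left]
      norm_num
  · rw [Lf_O]
    simp
  · rw [Lf_P, dot_zero_left]
    norm_num
  · rw [Lf_F, dot_zero_left]
    norm_num
  · rw [Lf_N, dot_zero_left, dot_single_left]
    have h3 := Gd.expW (β (i, s)) s i j p b
    simp only [Pi.zero_apply, zero_mul, Finset.sum_const_zero, add_zero, zero_add]
    exact h3

/-- exposing functional of a base vertex on a line -/
lemma Good.exp_O (β : Cds g o r B k) (i₀ : Fin o) (b : Bool) :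
    ∃ l : Xs g o →ₗ[ℝ] ℝ, ∀ x : Ix g o r B k F, x ≠ Sum.inr (Sum.inl (i₀, b)) →
      l (Vf ε h lam β x) < l (Vf (F := F) ε h lam β (Sum.inr (Sum.inl (i₀, b)))) := by
  refine ⟨Lf 0 0 (Pi.single i₀ (sb b)), fun x hx => ?_⟩
  have h2 : sb b * sb b = 1 := by rcases sb_cases b with h | h <;> rw [h] <;> norm_num
  have htarget : Lf 0 0 (Pi.single i₀ (sb b))
      (Vf (F := F) (k := k) ε h lam β (Sum.inr (Sum.inl (i₀, b)))) = 1 := by
    rw [Lf_O, Pi.single_eq_same, h2]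
  rw [htarget]
  rcases x with ⟨j', p', b'⟩ | ⟨i, b'⟩ | ⟨i, n⟩ | i | ⟨i, s⟩
  · rw [Lf_W, Pi.zero_apply, dot_zero_left]
    norm_num
  · rw [Lf_O]
    by_cases hi : i = i₀
    · subst hi
      rw [Pi.single_eq_same]
      have hb : b' ≠ b := by
        rintro rfl
        exact hx rfl
      rw [sb_ne hb]
      linarith
    · rw [Pi.single_eq_of_ne hi]
      norm_num
  · rw [Lf_P, dot_zero_left]
    norm_num
  · rw [Lf_F, dot_zero_left]
    norm_num
  · rw [Lf_N, dot_zero_left]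
    have h3 := Gd.expO (β (i, s)) s i i₀ b
    have e : ∑ i', (Pi.single i₀ (sb b) : Fin o → ℝ) i' * w0 ε (Tc (β (i, s))) i' =
        sb b * w0 ε (Tc (β (i, s))) i₀ := by
      rw [Finset.sum_eq_single i₀]
      · rw [Pi.single_eq_same]
      · intro i' _ hi
        rw [Pi.single_eq_of_ne hi, zero_mul]
      · intro h
        exact absurd (Finset.mem_univ _) h
    rw [e]
    simp only [Pi.zero_apply, dot_zero_left, Finset.sum_const_zero, zero_add]
    have e2 : Nr ε lam β i s * (sb b * w0 ε (Tc (β (i, s))) i₀) =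
        sb b * (Nr ε lam β i s * w0 ε (Tc (β (i, s))) i₀) := by ring
    rw [e2]
    exact h3

/-- exposing functional of a base vertex in the first plane -/
lemma Good.exp_P (β : Cds g o r B k) (i₀ : Fin k) (n₀ : Fin 4) :
    ∃ l : Xs g o →ₗ[ℝ] ℝ, ∀ x : Ix g o r B k F, x ≠ Sum.inr (Sum.inr (Sum.inl (i₀, n₀))) →
      l (Vf ε h lam β x) < l (Vf (F := F) ε h lam β (Sum.inr (Sum.inr (Sum.inl (i₀, n₀))))) := by
  refine ⟨Lf (av (sl i₀ + lam * (((n₀ : ℕ) : ℝ) - 3 / 2))) 0 0, fun x hx => ?_⟩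
  have hl := pow_pos Gd.lam_pos 2
  have habs : |((n₀ : ℕ) : ℝ) - 3 / 2| ≤ 3 / 2 := by
    have h1 := fin4_le n₀
    have h2 : (0 : ℝ) ≤ ((n₀ : ℕ) : ℝ) := Nat.cast_nonneg _
    rw [abs_le]
    constructor <;> linarith
  have htarget : 1 < Lf (av (sl i₀ + lam * (((n₀ : ℕ) : ℝ) - 3 / 2))) 0 0
      (Vf (F := F) (o := o) ε h lam β (Sum.inr (Sum.inr (Sum.inl (i₀, n₀))))) := by
    rw [Lf_P, Gd.P_near]
    have hD := Gd.den_P i₀ n₀
    have e : (((n₀ : ℕ) : ℝ) - 3 / 2 - ((n₀ : ℕ) : ℝ) + 2) *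
        (((n₀ : ℕ) : ℝ) - 3 / 2 - ((n₀ : ℕ) : ℝ) + 1) = -(1 / 4) := by ring
    rw [e]
    have := div_pos (mul_pos hl (show (0 : ℝ) < 1 / 4 by norm_num)) hD
    have e2 : lam ^ 2 * -(1 / 4) / (1 + (sl i₀ + lam * (((n₀ : ℕ) : ℝ) - 2)) *
        (sl i₀ + lam * (((n₀ : ℕ) : ℝ) - 1))) = -(lam ^ 2 * (1 / 4) /
        (1 + (sl i₀ + lam * (((n₀ : ℕ) : ℝ) - 2)) * (sl i₀ + lam * (((n₀ : ℕ) : ℝ) - 1)))) := by ring
    rw [e2]
    linarith
  refine lt_trans ?_ htarget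
  rcases x with ⟨j', p', b'⟩ | ⟨i, b'⟩ | ⟨i, n⟩ | i | ⟨i, s⟩
  · rw [Lf_W, Pi.zero_apply, dot_zero_left]
    norm_num
  · rw [Lf_O]
    simp
  · rw [Lf_P]
    by_cases hi : i = i₀
    · subst hi
      have hn : n ≠ n₀ := by
        rintro rfl
        exact hx rfl
      rw [Gd.P_near]
      have hD := Gd.den_P i n
      have hne : (n₀ : ℕ) ≠ (n : ℕ) := fun h => hn (Fin.ext h.symm)
      have h1 := nat_far hne
      have h3 : (1 : ℝ) ≤ (((n₀ : ℕ) : ℝ) - ((n : ℕ) : ℝ)) ^ 2 := by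
        rw [← sq_abs]
        nlinarith
      have hpos : 0 < (((n₀ : ℕ) : ℝ) - 3 / 2 - ((n : ℕ) : ℝ) + 2) *
          (((n₀ : ℕ) : ℝ) - 3 / 2 - ((n : ℕ) : ℝ) + 1) := by nlinarith
      have := div_pos (mul_pos hl hpos) hD
      linarith
    · exact Gd.P_far i i₀ hi n _ habs
  · rw [Lf_F]
    exact Gd.F_far i₀ i _ habs
  · rw [Lf_N]
    simp only [Pi.zero_apply, dot_zero_left, zero_mul, Finset.sum_const_zero, add_zero, mul_zero]
    exact Gd.N_lt β i s _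

/-- exposing functional of a filler -/
lemma Good.exp_F (β : Cds g o r B k) (i₀ : Fin F) :
    ∃ l : Xs g o →ₗ[ℝ] ℝ, ∀ x : Ix g o r B k F, x ≠ Sum.inr (Sum.inr (Sum.inr (Sum.inl i₀))) →
      l (Vf ε h lam β x) < l (Vf (F := F) ε h lam β (Sum.inr (Sum.inr (Sum.inr (Sum.inl i₀))))) := by
  refine ⟨Lf (av (k + ((i₀ : ℕ) : ℝ) + 1 + lam / 2)) 0 0, fun x hx => ?_⟩
  have hl := Gd.lam_pos
  have hl2 := pow_pos Gd.lam_pos 2
  have hl8 := Gd.lam_le
  have htarget : 1 < Lf (av (k + ((i₀ : ℕ) : ℝ) + 1 + lam / 2)) 0 0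
      (Vf (F := F) (o := o) ε h lam β (Sum.inr (Sum.inr (Sum.inr (Sum.inl i₀))))) := by
    rw [Lf_F]
    apply dot_qv_gt _ _ _ (Gd.den_F i₀)
    nlinarith
  refine lt_trans ?_ htarget
  rcases x with ⟨j', p', b'⟩ | ⟨i, b'⟩ | ⟨i, n⟩ | i | ⟨i, s⟩
  · rw [Lf_W, Pi.zero_apply, dot_zero_left]
    norm_num
  · rw [Lf_O]
    simp
  · rw [Lf_P]
    apply dot_qv_lt _ _ _ (Gd.den_P i n)
    have h1 := fin4_le n
    have h4 : ((i : ℕ) : ℝ) + 1 ≤ k := by exact_mod_cast i.2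
    have h5 : (0 : ℝ) ≤ ((i₀ : ℕ) : ℝ) := Nat.cast_nonneg _
    have h6 : (0 : ℝ) ≤ ((n : ℕ) : ℝ) := Nat.cast_nonneg _
    unfold sl
    apply mul_pos <;> nlinarith
  · rw [Lf_F]
    apply dot_qv_lt _ _ _ (Gd.den_F i)
    have hne : (i₀ : ℕ) ≠ (i : ℕ) := by
      intro h
      apply hx
      rw [Fin.ext h]
    have h1 := nat_far hne
    have h3 : (1 : ℝ) ≤ (((i₀ : ℕ) : ℝ) - ((i : ℕ) : ℝ)) ^ 2 := by
      rw [← sq_abs]
      nlinarith
    nlinarith
  · rw [Lf_N]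
    simp only [Pi.zero_apply, dot_zero_left, zero_mul, Finset.sum_const_zero, add_zero, mul_zero]
    exact Gd.N_lt β i s _

/-- a new point is beyond the facets of its slot at the middle cut -/
lemma Good.exp_N (β : Cds g o r B k) (i₀ : Fin k) (s₀ : Fin r) (b₀ : Fin B) (hb₀ : (b₀ : ℕ) = 0) :
    ∃ l : Xs g o →ₗ[ℝ] ℝ, ∀ x : Ix g o r B k F,
      x ≠ Sum.inr (Sum.inr (Sum.inr (Sum.inr (i₀, s₀)))) →
      l (Vf ε h lam β x) < l (Vf (F := F) ε h lam β (Sum.inr (Sum.inr (Sum.inr (Sum.inr (i₀, s₀)))))) := by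
  refine ⟨L0 ε lam i₀ 1 s₀ (fun _ => 0) (fun _ => b₀) (Sum.inr (Sum.inr false)), fun x hx => ?_⟩
  have htarget : 1 < L0 ε lam i₀ 1 s₀ (fun _ => 0) (fun _ => b₀) (Sum.inr (Sum.inr false))
      (Vf (F := F) (o := o) ε h lam β (Sum.inr (Sum.inr (Sum.inr (Sum.inr (i₀, s₀)))))) := by
    have h1 := Gd.L0_N (F := F) β i₀ 1 s₀ (fun _ => 0) (fun _ => b₀) (Sum.inr (Sum.inr false)) s₀
    have h2 : Val (ms s₀) ε (Tc (β (i₀, s₀))) (fun j => par B ε j s₀ 0 b₀)
        (sg (g := g) (o := o) (Sum.inr (Sum.inr false))) = Rf (ms s₀) ε (Tc (β (i₀, s₀))) := by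
      unfold Rf
      congr 1
      funext j
      simp [par, hb₀, off, ms]
    have h3 : cl (ms s₀) ε (Tc (β (i₀, s₀))) 1 = Rf (ms s₀) ε (Tc (β (i₀, s₀))) - 3 := by
      simp [cl]
    rw [h2, h3] at h1
    have h4 := Gd.Nr_pos β i₀ s₀
    nlinarith
  refine lt_of_le_of_lt ?_ htarget
  by_cases hb : IsBase x
  · exact Gd.L0_base_le β i₀ 1 s₀ _ _ _ x hb
  · rcases x with ⟨j', p', b'⟩ | ⟨i, b'⟩ | ⟨i, n⟩ | i | ⟨i, s⟩
    · exact absurd trivial hb
    · exact absurd trivial hb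
    · exact absurd trivial hb
    · exact absurd trivial hb
    · by_cases hi : i = i₀
      · subst hi
        have hs : s₀ ≠ s := by
          rintro rfl
          exact hx rfl
        have h1 := Gd.L0_N (F := F) β i 1 s₀ (fun _ => 0) (fun _ => b₀) (Sum.inr (Sum.inr false)) s
        have h2 := Gd.other (β (i, s)) s₀ s hs (fun _ => 0) (fun _ => b₀) (Sum.inr (Sum.inr false))
        have h3 : cl (ms s) ε (Tc (β (i, s))) 1 = Rf (ms s) ε (Tc (β (i, s))) - 3 := by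
          simp [cl]
        rw [h3] at h1
        have h4 := Gd.Nr_pos β i s
        have h5 : Val (ms s) ε (Tc (β (i, s))) (fun j => par B ε j s₀ 0 b₀)
          (sg (g := g) (o := o) (Sum.inr (Sum.inr false))) - (Rf (ms s) ε (Tc (β (i, s))) - 3) < 0 := by
          unfold ms
          linarith
        have h6 := mul_neg_of_pos_of_neg h4 h5
        linarith
      · exact (Gd.L0_N_far β i₀ 1 s₀ _ _ _ i hi s).le

lemma Good.exp (β : Cds g o r B k) (hB : 0 < B) : Exp (Vf (F := F) ε h lam β) := by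
  intro x
  rcases x with ⟨j, p, b⟩ | ⟨i, b⟩ | ⟨i, n⟩ | i | ⟨i, s⟩
  · exact Gd.exp_W β j p b
  · exact Gd.exp_O β i b
  · exact Gd.exp_P β i n
  · exact Gd.exp_F β i
  · exact Gd.exp_N β i s ⟨0, hB⟩ rfl

/-- **Separation** (one direction of the ordering of the codes) -/
lemma Good.sep_lt (β β' : Cds g o r B k) (i₀ : Fin k) (s₀ : Fin r) (γ : Grp g o)
    (hlt : (β (i₀, s₀) γ : ℕ) < (β' (i₀, s₀) γ : ℕ)) :
    ∃ T : Set (Ix g o r B k F), T ⊆ {x | IsBase x} ∧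
      T ∉ FS (Vf (F := F) ε h lam β) ∧ T ∈ FS (Vf (F := F) ε h lam β') := by
  -- digits of the second code
  let t : Fin g → Fin B := finFunctionFinEquiv.symm (β' (i₀, s₀) γ)
  have ht : ∑ j : Fin g, ((t j : ℕ) : ℝ) * (B : ℝ) ^ (j : ℕ) = ((β' (i₀, s₀) γ : ℕ) : ℝ) := by
    have h1 : (finFunctionFinEquiv t : ℕ) = (β' (i₀, s₀) γ : ℕ) := by
      simp [t]
    rw [finFunctionFinEquiv_apply] at h1
    exact_mod_cast h1
  refine ⟨Tf (F := F) ε h lam β i₀ (lv γ) s₀ (kap γ) t γ, fun x hx => hx.1, ?_, ?_⟩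
  · -- some new point is beyond
    apply Gd.not_mem_FS β i₀ (lv γ) s₀ (kap γ) t γ s₀
    have h1 := Gd.L0_N (F := F) β i₀ (lv γ) s₀ (kap γ) t γ s₀
    have h2 := (Gd.grp (β (i₀, s₀)) γ t s₀).1 (by
      rw [ht]
      unfold Tc
      have : ((β (i₀, s₀) γ : ℕ) : ℝ) + 1 ≤ ((β' (i₀, s₀) γ : ℕ) : ℝ) := by exact_mod_cast hlt
      linarith)
    have h4 := Gd.Nr_pos β i₀ s₀
    have h5 : 0 < Val (ms s₀) ε (Tc (β (i₀, s₀))) (fun j => par B ε j s₀ (kap γ j) (t j)) (sg γ) -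
      cl (ms s₀) ε (Tc (β (i₀, s₀))) (lv γ) := sub_pos.2 h2
    have h6 := mul_pos h4 h5
    linarith
  · have e : Tf (F := F) ε h lam β i₀ (lv γ) s₀ (kap γ) t γ =
        Tf (F := F) ε h lam β' i₀ (lv γ) s₀ (kap γ) t γ := by
      ext x
      constructor
      · rintro ⟨h1, h2⟩
        exact ⟨h1, by rw [← h2, Vf_base ε h lam β' β x h1]⟩
      · rintro ⟨h1, h2⟩
        exact ⟨h1, by rw [← h2, Vf_base ε h lam β β' x h1]⟩
    rw [e]
    apply Gd.mem_FS β' i₀ (lv γ) s₀ (kap γ) t γ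
    intro s
    have h1 := Gd.L0_N (F := F) β' i₀ (lv γ) s₀ (kap γ) t γ s
    have h4 := Gd.Nr_pos β' i₀ s
    have h5 : Val (ms s) ε (Tc (β' (i₀, s))) (fun j => par B ε j s₀ (kap γ j) (t j)) (sg γ) -
      cl (ms s) ε (Tc (β' (i₀, s))) (lv γ) < 0 := by
      by_cases hs : s₀ = s
      · subst hs
        have h2 := (Gd.grp (β' (i₀, s₀)) γ t s₀).2 (by
          rw [ht]
          unfold Tc
          linarith)
        exact sub_neg.2 h2
      · have h2 := Gd.other (β' (i₀, s)) s₀ s hs (kap γ) t γ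
        have h3 : Rf (ms s) ε (Tc (β' (i₀, s))) - 3 ≤ cl (ms s) ε (Tc (β' (i₀, s))) (lv γ) := by
          have he := Gd.eps.le
          have hT := Tc_pos (β' (i₀, s))
          have h7 := mul_nonneg he (hT (Sum.inr (Sum.inr false)))
          have h8 := mul_nonneg he (hT (Sum.inr (Sum.inr true)))
          rcases γ with ⟨j₀, _ | _⟩ | i₁ | _ | _ <;> simp only [lv, cl] <;> simp <;> linarith
        have h9 : Val (ms s) ε (Tc (β' (i₀, s))) (fun j => par B ε j s₀ (kap γ j) (t j)) (sg γ) <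
            Rf (ms s) ε (Tc (β' (i₀, s))) - 3 := h2
        linarith
    have h6 := mul_neg_of_pos_of_neg h4 h5
    linarith

end

/-- the number of base vertices -/
lemma ncard_base : {x : Ix g o r B k F | IsBase x}.ncard ≤
    4 * k + F + 6 * g * r * B + 2 * o := by
  classical
  let φ : (Fin g × (Fin r × Fin 3 × Fin B) × Bool) ⊕ ((Fin o × Bool) ⊕ ((Fin k × Fin 4) ⊕ Fin F)) →
      Ix g o r B k F
    | Sum.inl a => Sum.inl a
    | Sum.inr (Sum.inl a) => Sum.inr (Sum.inl a)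
    | Sum.inr (Sum.inr (Sum.inl a)) => Sum.inr (Sum.inr (Sum.inl a))
    | Sum.inr (Sum.inr (Sum.inr a)) => Sum.inr (Sum.inr (Sum.inr (Sum.inl a)))
  have h1 : {x : Ix g o r B k F | IsBase x} ⊆ Set.range φ := by
    intro x hx
    rcases x with a | a | a | a | q
    · exact ⟨Sum.inl a, rfl⟩
    · exact ⟨Sum.inr (Sum.inl a), rfl⟩
    · exact ⟨Sum.inr (Sum.inr (Sum.inl a)), rfl⟩
    · exact ⟨Sum.inr (Sum.inr (Sum.inr a)), rfl⟩
    · exact absurd hx (by simp [IsBase])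
  refine (Set.ncard_le_ncard h1 (Set.toFinite _)).trans ?_
  rw [← Set.image_univ]
  refine (Set.ncard_image_le (Set.toFinite _)).trans ?_
  rw [Set.ncard_univ, Nat.card_eq_fintype_card]
  simp only [Fintype.card_sum, Fintype.card_prod, Fintype.card_fin, Fintype.card_bool]
  nlinarith

/-- **The construction.** -/
theorem construct (g o r B k F : ℕ) (hg : 1 ≤ g) (hr : 1 ≤ r) (hB : 1 ≤ B) (hk : 1 ≤ k) :
    (B ^ g) ^ ((2 * g + o + 2) * (k * r)) ≤
      numTypes (2 + 2 * g + o) (4 * k + F + 6 * g * r * B + 2 * o + k * r) *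
        (4 * k + F + 6 * g * r * B + 2 * o + k * r) ^ (4 * k + F + 6 * g * r * B + 2 * o) := by
  classical
  obtain ⟨ε, h, lam, Gd⟩ := exists_good g o r B k hg
  have hcard : Fintype.card (Ix g o r B k F) = 4 * k + F + 6 * g * r * B + 2 * o + k * r := by
    simp only [Fintype.card_sum, Fintype.card_prod, Fintype.card_fin, Fintype.card_bool]
    ring
  have hdim : Module.finrank ℝ (Xs g o) = 2 + 2 * g + o := by
    simp [Module.finrank_pi_fintype]
    ring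
  have hΓ : Fintype.card (Cds g o r B k) = (B ^ g) ^ ((2 * g + o + 2) * (k * r)) := by
    simp only [Fintype.card_fun, Fintype.card_sum, Fintype.card_prod, Fintype.card_fin,
      Fintype.card_bool]
    rw [← pow_mul]
    congr 1
    ring
  have h1 := card_le (d := 2 + 2 * g + o) (v := 4 * k + F + 6 * g * r * B + 2 * o + k * r)
    (le_trans (Nat.mul_pos hk hr) (Nat.le_add_left _ _)) (X := Xs g o) hdim (ι := Ix g o r B k F) hcard (Γ := Cds g o r B k)
    (fun β => Vf (F := F) ε h lam β) (fun β => Gd.exp β hB)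
    (fun β => Gd.full β ⟨0, hk⟩ ⟨0, hr⟩ ⟨0, hB⟩) {x | IsBase x}
    (4 * k + F + 6 * g * r * B + 2 * o) ncard_base (by
      intro β β' hne
      have : ∃ q : Fin k × Fin r, ∃ γ : Grp g o, β q γ ≠ β' q γ := by
        by_contra hcon
        push Not at hcon
        exact hne (funext fun q => funext fun γ => hcon q γ)
      obtain ⟨⟨i₀, s₀⟩, γ, hγ⟩ := this
      have hγ' : (β (i₀, s₀) γ : ℕ) ≠ (β' (i₀, s₀) γ : ℕ) := fun h => hγ (Fin.ext h)
      rcases Nat.lt_or_gt_of_ne hγ' with hlt | hlt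
      · obtain ⟨T, hT1, hT2, hT3⟩ := Gd.sep_lt (F := F) β β' i₀ s₀ γ hlt
        exact ⟨T, hT1, fun h => hT2 (h.2 hT3)⟩
      · obtain ⟨T, hT1, hT2, hT3⟩ := Gd.sep_lt (F := F) β' β i₀ s₀ γ hlt
        exact ⟨T, hT1, fun h => hT2 (h.1 hT3)⟩)
  rw [hΓ] at h1
  exact h1

end Pool.Agent.H54.Pol
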